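import Mathlib

/-!
# Almost generative programs: counting
-/

namespace Pool.Agent.Lib.BP

open Finset Classical

section

variable {V K : Type} [Fintype V] [Fintype K]

/-- Labellings which agree outside of `C` and differ pairwise at few nodes. -/
theorem ball [Nonempty K] {c ρ : ℕ} {C : Finset V} (hC : C.card = c)
    (A : Finset (V → K)) (hoff : ∀ a ∈ A, ∀ b ∈ A, ∀ v, v ∉ C → a v = b v)
    (hdiff : ∀ a ∈ A, ∀ b ∈ A, (univ.filter fun v => a v ≠ b v).card ≤ ρ) :
    A.card ≤ 2 ^ c * Fintype.card K ^ ρ := by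
  rcases A.eq_empty_or_nonempty with rfl | ⟨a₀, ha₀⟩
  · simp
  have hKpos : 0 < Fintype.card K := Fintype.card_pos
  have hsub : A ⊆ (C.powerset.filter fun D => D.card ≤ ρ).biUnion fun D =>
      Fintype.piFinset fun v => if v ∈ D then univ else {a₀ v} := by
    intro a ha
    refine mem_biUnion.2 ⟨univ.filter fun v => a v ≠ a₀ v, ?_, ?_⟩
    · refine mem_filter.2 ⟨mem_powerset.2 fun v hv => ?_, hdiff a ha a₀ ha₀⟩
      by_contra hn
      exact (mem_filter.1 hv).2 (hoff a ha a₀ ha₀ v hn)
    · rw [Fintype.mem_piFinset]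
      intro v
      by_cases hv : a v = a₀ v
      · simp [hv]
      · simp [hv]
  refine (card_le_card hsub).trans (card_biUnion_le.trans ?_)
  have hD : ∀ D ∈ C.powerset.filter fun D => D.card ≤ ρ,
      (Fintype.piFinset fun v => if v ∈ D then (univ : Finset K) else {a₀ v}).card ≤
        Fintype.card K ^ ρ := by
    intro D hD
    have h1 := (mem_filter.1 hD).2
    rw [Fintype.card_piFinset]
    have : ∏ v : V, (if v ∈ D then (univ : Finset K) else {a₀ v}).card =
        Fintype.card K ^ D.card := by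
      rw [← prod_const, ← univ_inter D, ← prod_ite_mem]
      refine prod_congr rfl fun v _ => ?_
      by_cases hv : v ∈ D <;> simp [hv]
    rw [this]
    exact Nat.pow_le_pow_right hKpos h1
  refine (sum_le_sum hD).trans ?_
  rw [sum_const, smul_eq_mul]
  refine Nat.mul_le_mul_right _ ((card_filter_le _ _).trans (le_of_eq ?_))
  rw [card_powerset, hC]

/-- Labellings which agree outside of `C`, each with a small set of forbidden names, such that two
of them which avoid the forbidden names of each other differ at few nodes. -/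
theorem fiber [Nonempty K] {c ρ n : ℕ} {C : Finset V} (hC : C.card = c)
    (A : Finset (V → K)) (hoff : ∀ a ∈ A, ∀ b ∈ A, ∀ v, v ∉ C → a v = b v)
    (N : (V → K) → Finset (V × K)) (hN : ∀ a ∈ A, (N a).card ≤ n)
    (hdiff : ∀ a ∈ A, ∀ b ∈ A, (∀ e ∈ N a, a e.1 ≠ b e.1 → e.2 ≠ b e.1) →
      (∀ e ∈ N b, b e.1 ≠ a e.1 → e.2 ≠ a e.1) → (univ.filter fun v => a v ≠ b v).card ≤ ρ) :
    A.card ≤ 2 ^ (c + n) * (2 ^ c * Fintype.card K ^ ρ) := by
  -- the names of the nodes of `C`
  set M : Finset (V × K) := C ×ˢ (univ : Finset K) with hM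
  let gr : (V → K) → Finset (V × K) := fun a => C.image fun v => (v, a v)
  have hgrM : ∀ a, gr a ⊆ M := by
    intro a e he
    obtain ⟨v, hv, rfl⟩ := mem_image.1 he
    exact mem_product.2 ⟨hv, mem_univ _⟩
  have hgrc : ∀ a, (gr a).card ≤ c := fun a => card_image_le.trans hC.le
  let good : Finset (V × K) → (V → K) → Prop := fun U a => gr a ⊆ U ∧ Disjoint U (N a \ gr a)
  -- every labelling is good for many sets of names
  have h1 : ∀ a ∈ A, 2 ^ M.card ≤ 2 ^ (c + n) * (M.powerset.bipartiteBelow good a).card := by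
    intro a ha
    have h2 : 2 ^ (M \ (gr a ∪ N a)).card ≤ (M.powerset.bipartiteBelow good a).card := by
      rw [← card_powerset]
      refine card_le_card_of_injOn (fun U => U ∪ gr a) ?_ ?_
      · intro U hU
        have hU := mem_powerset.1 (mem_coe.1 hU)
        refine mem_coe.2 (mem_filter.2 ⟨mem_powerset.2 ?_, subset_union_right, ?_⟩)
        · exact union_subset (hU.trans sdiff_subset) (hgrM a)
        · rw [disjoint_left]
          intro e he he'
          rw [mem_sdiff] at he'
          rcases mem_union.1 he with h | h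
          · exact (mem_sdiff.1 (hU h)).2 (mem_union_right _ he'.1)
          · exact he'.2 h
      · intro U hU U' hU' h
        have hU := mem_powerset.1 (mem_coe.1 hU)
        have hU' := mem_powerset.1 (mem_coe.1 hU')
        have h0 : ∀ W ⊆ M \ (gr a ∪ N a), (W ∪ gr a) \ gr a = W := by
          intro W hW
          rw [union_sdiff_right]
          refine sdiff_eq_self_of_disjoint ?_
          rw [disjoint_left]
          intro e he he'
          exact (mem_sdiff.1 (hW he)).2 (mem_union_left _ he')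
        rw [← h0 U hU, ← h0 U' hU']
        exact congrArg (· \ gr a) h
    have h3 : M.card ≤ (M \ (gr a ∪ N a)).card + (c + n) := by
      have h4 := le_card_sdiff (gr a ∪ N a) M
      have h5 := card_union_le (gr a) (N a)
      have h6 := hgrc a
      have h7 := hN a ha
      omega
    calc 2 ^ M.card ≤ 2 ^ ((M \ (gr a ∪ N a)).card + (c + n)) :=
          Nat.pow_le_pow_right (by norm_num) h3
      _ = 2 ^ (c + n) * 2 ^ (M \ (gr a ∪ N a)).card := by rw [pow_add, mul_comm]
      _ ≤ _ := Nat.mul_le_mul_left _ h2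
  -- few labellings are good for a set of names
  have h2 : ∀ U ∈ M.powerset, (A.bipartiteAbove (fun U a => good U a) U).card ≤
      2 ^ c * Fintype.card K ^ ρ := by
    intro U _
    have hav : ∀ a ∈ A.filter (good U), ∀ b ∈ A.filter (good U),
        ∀ e ∈ N a, a e.1 ≠ b e.1 → e.2 ≠ b e.1 := by
      intro a ha b hb e he hne heb
      obtain ⟨haA, hga, hda⟩ := mem_filter.1 ha
      obtain ⟨hbA, hgb, hdb⟩ := mem_filter.1 hb
      have heC : e.1 ∈ C := by
        by_contra h
        exact hne (hoff a haA b hbA _ h)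
      have heU : e ∈ U := hgb (mem_image.2 ⟨e.1, heC, Prod.ext rfl heb.symm⟩)
      refine disjoint_left.1 hda heU (mem_sdiff.2 ⟨he, fun h => ?_⟩)
      obtain ⟨v, _, hv⟩ := mem_image.1 h
      have h1 : v = e.1 := congrArg Prod.fst hv
      have h2 : a v = e.2 := congrArg Prod.snd hv
      exact hne (by rw [← heb, ← h2, h1])
    refine ball hC _ (fun a ha b hb => hoff a (mem_filter.1 ha).1 b (mem_filter.1 hb).1) ?_
    intro a ha b hb
    exact hdiff a (mem_filter.1 ha).1 b (mem_filter.1 hb).1 (hav a ha b hb) (hav b hb a ha)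
  have h3 : A.card * 2 ^ M.card ≤
      (2 ^ (c + n) * (2 ^ c * Fintype.card K ^ ρ)) * 2 ^ M.card := by
    calc A.card * 2 ^ M.card = ∑ _a ∈ A, 2 ^ M.card := by rw [sum_const, smul_eq_mul]
      _ ≤ ∑ a ∈ A, 2 ^ (c + n) * (M.powerset.bipartiteBelow good a).card := sum_le_sum h1
      _ = 2 ^ (c + n) * ∑ U ∈ M.powerset, (A.bipartiteAbove good U).card := by
          rw [← mul_sum, sum_card_bipartiteAbove_eq_sum_card_bipartiteBelow]
      _ ≤ 2 ^ (c + n) * ∑ _U ∈ M.powerset, 2 ^ c * Fintype.card K ^ ρ :=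
          Nat.mul_le_mul_left _ (sum_le_sum h2)
      _ = (2 ^ (c + n) * (2 ^ c * Fintype.card K ^ ρ)) * 2 ^ M.card := by
          rw [sum_const, card_powerset, smul_eq_mul]
          ring
  exact Nat.le_of_mul_le_mul_right h3 (by positivity)

/-- Counting with exceptions. `Y` is the set of the accepted labellings. -/
theorem count2 {Q : Type} [Fintype Q] (r : V) (x₀ : K) (c ρ n D : ℕ)
    (F : Finset (Finset V)) (hF : ∀ C ∈ F, C.card = c ∧ r ∉ C)
    (Y : Finset (V → K)) (hY : ∀ a ∈ Y, a r = x₀)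
    (hbig : Nat.card {a : V → K // a r = x₀} ≤ D * Y.card)
    (d : (V → K) → Q × Q × Finset V) (hd : ∀ a ∈ Y, (d a).2.2 ∈ F)
    (N : (V → K) → Finset (V × K)) (hN : ∀ a ∈ Y, (N a).card ≤ n)
    (hdiff : ∀ a ∈ Y, ∀ b ∈ Y, d a = d b → (∀ v, v ∉ (d a).2.2 → a v = b v) →
      (∀ e ∈ N a, a e.1 ≠ b e.1 → e.2 ≠ b e.1) →
      (∀ e ∈ N b, b e.1 ≠ a e.1 → e.2 ≠ a e.1) →
      (univ.filter fun v => a v ≠ b v).card ≤ ρ) :
    Fintype.card K ^ c ≤
      D * (2 ^ (c + n) * (2 ^ c * Fintype.card K ^ ρ)) * (Fintype.card Q ^ 2 * F.card) := by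
  have : Nonempty K := ⟨x₀⟩
  have hKpos : 0 < Fintype.card K := Fintype.card_pos
  set L : Finset (V → K) := Fintype.piFinset fun v => if v = r then {x₀} else univ with hL
  set T : Finset V → Finset (V → K) :=
    fun C => Fintype.piFinset fun v => if v = r ∨ v ∈ C then {x₀} else univ with hT
  have hLm : ∀ a, a ∈ L ↔ a r = x₀ := by
    intro a
    rw [hL, Fintype.mem_piFinset]
    constructor
    · intro h
      simpa using h r
    · intro h v
      by_cases hv : v = r
      · subst hv
        simpa using h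
      · simp [hv]
  rw [Nat.subtype_card L hLm] at hbig
  have hkc : ∀ C ∈ F, (T C).card * Fintype.card K ^ c = L.card := by
    intro C hC
    obtain ⟨h1, h2⟩ := hF C hC
    rw [hT, hL, Fintype.card_piFinset, Fintype.card_piFinset]
    have e : Fintype.card K ^ c = ∏ v : V, (if v ∈ C then Fintype.card K else 1) := by
      rw [prod_ite_mem, prod_const, univ_inter, h1]
    rw [e, ← prod_mul_distrib]
    refine prod_congr rfl fun v _ => ?_
    by_cases hv : v = r
    · subst hv
      simp [h2]
    · by_cases hvC : v ∈ C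
      · simp [hv, hvC]
      · simp [hv, hvC]
  have hLpos : 0 < L.card := card_pos.2 ⟨fun _ => x₀, (hLm _).2 rfl⟩
  obtain ⟨a₁, ha₁⟩ : Y.Nonempty := by
    rw [nonempty_iff_ne_empty]
    rintro rfl
    rw [card_empty, mul_zero] at hbig
    omega
  have hC₀ := hd a₁ ha₁
  set C₀ := (d a₁).2.2
  have hTeq : ∀ C ∈ F, (T C).card = (T C₀).card := by
    intro C hC
    have := (hkc C hC).trans (hkc C₀ hC₀).symm
    exact Nat.eq_of_mul_eq_mul_right (pow_pos hKpos c) this
  -- the classes
  set f : (V → K) → (Q × Q) × (Σ _ : Finset V, V → K) := fun a =>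
    (((d a).1, (d a).2.1), ⟨(d a).2.2, fun v => if v ∈ (d a).2.2 then x₀ else a v⟩) with hf
  have himg : (Y.image f).card ≤ Fintype.card Q ^ 2 * F.card * (T C₀).card := by
    have hsub : Y.image f ⊆ (univ : Finset (Q × Q)) ×ˢ F.sigma T := by
      intro q hq
      obtain ⟨a, haY, rfl⟩ := mem_image.1 hq
      have ha := hY a haY
      refine mem_product.2 ⟨mem_univ _, mem_sigma.2 ⟨hd a haY, ?_⟩⟩
      have hmem : ∀ v, (if v ∈ (d a).2.2 then x₀ else a v) ∈
          (if v = r ∨ v ∈ (d a).2.2 then ({x₀} : Finset K) else univ) := by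
        intro v
        by_cases hvC : v ∈ (d a).2.2
        · simp [hvC]
        · by_cases hv : v = r
          · rw [hv] at hvC ⊢
            simp [hvC, ha]
          · simp [hv, hvC]
      exact Fintype.mem_piFinset.2 hmem
    refine (card_le_card hsub).trans (le_of_eq ?_)
    rw [card_product, card_sigma, sum_congr rfl hTeq, sum_const, smul_eq_mul, card_univ,
      Fintype.card_prod]
    ring
  have hfib : ∀ q ∈ Y.image f, (Y.filter fun a => f a = q).card ≤
      2 ^ (c + n) * (2 ^ c * Fintype.card K ^ ρ) := by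
    intro q hq
    obtain ⟨a₀, ha₀, rfl⟩ := mem_image.1 hq
    have hC := hF _ (hd a₀ ha₀)
    have hcls : ∀ a, f a = f a₀ → d a = d a₀ ∧ ∀ v, v ∉ (d a₀).2.2 → a v = a₀ v := by
      intro a hfa
      simp only [hf, Prod.mk.injEq, Sigma.mk.injEq] at hfa
      obtain ⟨⟨h1, h2⟩, h3, h4⟩ := hfa
      refine ⟨Prod.ext h1 (Prod.ext h2 h3), fun v hv => ?_⟩
      have h4 := congrFun (eq_of_heq h4) v
      rw [if_neg (h3 ▸ hv), if_neg hv] at h4
      exact h4
    refine fiber hC.1 _ ?_ N ?_ ?_
    · intro a ha b hb v hv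
      have h1 := (hcls a (mem_filter.1 ha).2).2 v hv
      have h2 := (hcls b (mem_filter.1 hb).2).2 v hv
      rw [h1, h2]
    · intro a ha
      exact hN a (mem_filter.1 ha).1
    · intro a ha b hb
      obtain ⟨haY, hfa⟩ := mem_filter.1 ha
      obtain ⟨hbY, hfb⟩ := mem_filter.1 hb
      obtain ⟨h1, h1'⟩ := hcls a hfa
      obtain ⟨h2, h2'⟩ := hcls b hfb
      refine hdiff a haY b hbY (h1.trans h2.symm) ?_
      intro v hv
      rw [h1] at hv
      rw [h1' v hv, h2' v hv]
  have hYc := card_le_mul_card_image Y _ hfib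
  have hpos : 0 < (T C₀).card := by
    rcases Nat.eq_zero_or_pos (T C₀).card with h | h
    · have := hkc C₀ hC₀
      rw [h, Nat.zero_mul] at this
      omega
    · exact h
  refine Nat.le_of_mul_le_mul_left ?_ hpos
  calc (T C₀).card * Fintype.card K ^ c = L.card := hkc C₀ hC₀
    _ ≤ D * Y.card := hbig
    _ ≤ D * (2 ^ (c + n) * (2 ^ c * Fintype.card K ^ ρ) * (Y.image f).card) :=
        Nat.mul_le_mul_left _ hYc
    _ ≤ D * (2 ^ (c + n) * (2 ^ c * Fintype.card K ^ ρ) *
        (Fintype.card Q ^ 2 * F.card * (T C₀).card)) :=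
        Nat.mul_le_mul_left _ (Nat.mul_le_mul_left _ himg)
    _ = _ := by ring

end

end Pool.Agent.Lib.BP
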