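import Pool.Agent.Lib.BP.Inp

/-!
# Almost generative programs: the exchange lemma
-/

namespace Pool.Agent.Lib.BP

namespace Dag

open Classical

variable {α V K : Type} (G : Dag α V K) {a b : V → K}

/-- `E` contains the elements which occur in the asked pairs of the list `l` and are not names for
the labelling `a`. -/
def Exc (P : NBP (α × α) α) (a : V → K) (l : List P.Q) (E : Finset α) : Prop :=
  ∀ p ∈ l, ∀ i j : α, P.query p = some (i, j) →
    ((∃ o, i = G.name a o) ∨ i ∈ E) ∧ ((∃ o, j = G.name a o) ∨ j ∈ E)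

/-- `E` does not contain the name of `u` for the labelling `b` if `a` and `b` differ at `u`. -/
def Clean (a b : V → K) (E : Finset α) : Prop :=
  ∀ e ∈ E, ∀ u, a u ≠ b u → e ≠ G.name b (some u)

theorem exc_of {P : NBP (α × α) α} {r : ℕ} (hP : AlmostGen P (G.nm none) r) {l : List P.Q}
    {q : P.Q} (h : P.Comp (G.inp a) P.start l q) (hq : q ∈ P.acc) :
    ∃ E : Finset α, E.card ≤ r ∧ G.Exc P a l E := by
  obtain ⟨E, h1, h2⟩ := hP _ l q hq h
  refine ⟨E, h1, fun p hp i j hpq => ?_⟩
  obtain ⟨h3, h4⟩ := h2 p hp i j hpq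
  exact ⟨h3.imp G.gen_name id, h4.imp G.gen_name id⟩

/-- If `i` is the name of `o` for the labelling `a`, and it is a name for the labelling `b` or
belongs to a clean set, then `a` and `b` agree at `o`. -/
theorem agree {i : α} {o : Option V} (hi : i = G.name a o)
    (h : (∃ o', i = G.name b o') ∨ ∀ u, a u ≠ b u → i ≠ G.name a (some u)) :
    ∀ u, o = some u → a u = b u := by
  intro u hu
  rcases h with ⟨o', h⟩ | h
  · exact (G.name_eq (hi.symm.trans h)).2 u hu
  · by_contra hne
    exact h u hne (by rw [hi, hu])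

/-- The exchange lemma with exceptions. -/
theorem aexchange {P : NBP (α × α) α} {r : ℕ} (hP : AlmostGen P (G.nm none) r)
    {l₁ m l₃ : List P.Q} {q₁ q₂ q₃ : P.Q} {Ea Eb : Finset α}
    (hEa : G.Exc P a (l₁ ++ l₃) Ea) (hEb : G.Exc P b m Eb) (hca : G.Clean a b Ea)
    (hcb : G.Clean b a Eb)
    (ha₁ : P.Comp (G.inp a) P.start l₁ q₁) (ha₃ : P.Comp (G.inp a) q₂ l₃ q₃) (hq₃ : q₃ ∈ P.acc)
    (hb : P.Comp (G.inp b) q₁ m q₂)
    (hD : ∀ v, a v ≠ b v → ∀ p ∈ m,
      P.query p ≠ some (G.name b (G.ch v).1, G.name b (G.ch v).2))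
    (D : Finset V) (hDa : ∀ u ∈ D, a u ≠ b u)
    (hDy : ∀ u ∈ D, ∃ y, G.Child u y ∧ ∃ p ∈ m,
      P.query p = some (G.name b (G.ch y).1, G.name b (G.ch y).2)) : D.card ≤ r := by
  -- the mixed input
  let g : α × α → α := fun e => if ∃ r ∈ m, P.query r = some e then G.inp b e else G.inp a e
  have hg : ∀ r ∈ l₁ ++ l₃, ∀ e, P.query r = some e → g e = G.inp a e := by
    rintro r hr ⟨i, j⟩ hq
    show (if _ then _ else _) = _
    split_ifs with h
    · obtain ⟨r', hr', hq'⟩ := h
      obtain ⟨hA1, hA2⟩ := hEa r hr i j hq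
      obtain ⟨hB1, hB2⟩ := hEb r' hr' i j hq'
      -- agreement on the children
      have hAi : (∃ o, i = G.name a o) ∨ ∀ u, b u ≠ a u → i ≠ G.name b (some u) :=
        hA1.imp id fun h1 u hu => hca _ h1 u hu.symm
      have hAj : (∃ o, j = G.name a o) ∨ ∀ u, b u ≠ a u → j ≠ G.name b (some u) :=
        hA2.imp id fun h1 u hu => hca _ h1 u hu.symm
      have hBi : (∃ o, i = G.name b o) ∨ ∀ u, a u ≠ b u → i ≠ G.name a (some u) :=
        hB1.imp id fun h1 u hu => hcb _ h1 u hu.symm
      have hBj : (∃ o, j = G.name b o) ∨ ∀ u, a u ≠ b u → j ≠ G.name a (some u) :=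
        hB2.imp id fun h1 u hu => hcb _ h1 u hu.symm
      rcases G.inp_cases a i j with ⟨v, hi, hj, hv⟩ | ⟨hn, hv⟩
      · have k1 : G.name a (G.ch v).1 = G.name b (G.ch v).1 := G.name_congr (G.agree hi hBi)
        have k2 : G.name a (G.ch v).2 = G.name b (G.ch v).2 := G.name_congr (G.agree hj hBj)
        have hav : a v = b v := by
          by_contra hne
          exact hD v hne r' hr' (by rw [hq', hi, hj, k1, k2])
        rw [hv, hi, hj, k1, k2, G.inp_ch]
        exact (G.name_congr (fun w hw => by
          simp only [Option.some.injEq] at hw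
          subst hw
          exact hav)).symm
      · rcases G.inp_cases b i j with ⟨v, hi, hj, _⟩ | ⟨_, hv'⟩
        · exfalso
          have k1 : G.name b (G.ch v).1 = G.name a (G.ch v).1 := G.name_congr (G.agree hi hAi)
          have k2 : G.name b (G.ch v).2 = G.name a (G.ch v).2 := G.name_congr (G.agree hj hAj)
          exact hn v ⟨by rw [hi, k1], by rw [hj, k2]⟩
        · rw [hv, hv']
          rfl
    · rfl
  have hg' : ∀ r ∈ m, ∀ e, P.query r = some e → g e = G.inp b e := by
    intro r hr e hq
    exact if_pos ⟨r, hr, hq⟩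
  have hc : P.Comp g P.start (l₁ ++ m ++ l₃) q₃ :=
    ((ha₁.congr fun r hr => hg r (by simp [hr])).append (hb.congr hg')).append
      (ha₃.congr fun r hr => hg r (by simp [hr]))
  obtain ⟨E, hE, hEg⟩ := hP g _ q₃ hq₃ hc
  have key : ∀ u, a u ≠ b u → ∀ x, Gen g (G.nm none) x → x ≠ G.name b (some u) := by
    intro u hu x hx hxe
    cases hx with
    | base =>
      have := (G.name_eq (a := b) (b := b) (o := none) (o' := some u) hxe).1
      simp at this
    | mul i j _ _ =>
      by_cases h : ∃ r ∈ m, P.query r = some (i, j)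
      · obtain ⟨r, hr, hq⟩ := h
        rw [hg' r hr (i, j) hq] at hxe
        rcases G.inp_cases b i j with ⟨v, hi, hj, hv⟩ | ⟨_, hv⟩
        · have := (G.name_eq (hv.symm.trans hxe)).1
          simp only [Option.some.injEq] at this
          subst this
          exact hD v hu r hr (by rw [hq, hi, hj])
        · have := (G.name_eq (hv.symm.trans hxe)).1
          simp at this
      · have hgij : g (i, j) = G.inp a (i, j) := if_neg h
        rw [hgij] at hxe
        rcases G.inp_cases a i j with ⟨v, hi, hj, hv⟩ | ⟨_, hv⟩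
        · have := G.name_eq (hv.symm.trans hxe)
          have h3 := this.1
          simp only [Option.some.injEq] at h3
          subst h3
          exact hu (this.2 v rfl)
        · have := (G.name_eq (hv.symm.trans hxe)).1
          simp at this
  -- the names of the elements of `D` are exceptions
  refine le_trans (Finset.card_le_card_of_injOn (fun u => G.name b (some u)) ?_ ?_) hE
  · intro u hu
    have hu := Finset.mem_coe.1 hu
    obtain ⟨y, hy, p, hp, hpy⟩ := hDy u hu
    obtain ⟨h1, h2⟩ := hEg p (by simp [hp]) _ _ hpy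
    rcases hy with hy | hy
    · rw [hy] at h1
      exact Finset.mem_coe.2 (h1.resolve_left fun h => key u (hDa u hu) _ h rfl)
    · rw [hy] at h2
      exact Finset.mem_coe.2 (h2.resolve_left fun h => key u (hDa u hu) _ h rfl)
  · intro u _ v _ h
    exact Option.some.inj (G.name_eq h).1

end Dag

end Pool.Agent.Lib.BP
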