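import Pool.Agent.Lib.BP.Main
import Pool.Agent.Lib.BP.AInp
import Pool.Agent.Lib.BP.ACount

/-!
# The lower bound for almost generative programs
-/

namespace Pool.Agent.Lib.BP

open Classical Finset

section

variable {α K : Type} {b R : ℕ}

/-- The data for a labelling: two states and a set of open nodes. `E` is the set of exceptions. -/
def ACrit (G : Dag α (Nd b R) K) (P : NBP (α × α) α) (c τ : ℕ) (a : Nd b R → K)
    (E : Finset α) (d : P.Q × P.Q × Finset (Nd b R)) : Prop :=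
  ∃ l₁ m l₃ q₃, P.Comp (G.inp a) P.start l₁ d.1 ∧ P.Comp (G.inp a) d.1 m d.2.1 ∧
    P.Comp (G.inp a) d.2.1 l₃ q₃ ∧ q₃ ∈ P.acc ∧ d.2.2.card = c ∧
    (∃ j < τ, ∀ u ∈ d.2.2, j * b ≤ (u.1 : ℕ) ∧ (u.1 : ℕ) < j * b + b) ∧
    (∀ u ∈ d.2.2, (∀ p ∈ m, ¬ Asks G P a p u) ∧ ∃ y, G.Child u y ∧ ∃ p ∈ m, Asks G P a p y) ∧
    G.Exc P a (l₁ ++ m ++ l₃) E

theorem acrit_diff {G : Dag α (Nd b R) K} {P : NBP (α × α) α} {r : ℕ}
    (hG : AlmostGen P (G.nm none) r) {c τ : ℕ} {a a' : Nd b R → K} {E E' : Finset α}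
    {d : P.Q × P.Q × Finset (Nd b R)} (h : ACrit G P c τ a E d)
    (h' : ACrit G P c τ a' E' d) (hv : ∀ v, v ∉ d.2.2 → a v = a' v) (hc : G.Clean a a' E)
    (hc' : G.Clean a' a E') : (univ.filter fun v => a v ≠ a' v).card ≤ r := by
  obtain ⟨l₁, m, l₃, q₃, h1, h2, h3, h4, _, _, _, h6⟩ := h
  obtain ⟨n₁, m', n₃, q₄, h1', h2', h3', h4', _, _, h5', h6'⟩ := h'
  have hC : ∀ v, a v ≠ a' v → v ∈ d.2.2 := fun v hne => by
    by_contra hn
    exact hne (hv v hn)
  refine G.aexchange hG (l₁ := l₁) (m := m') (l₃ := l₃) (Ea := E) (Eb := E') ?_ ?_ hc hc' h1 h3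
    h4 h2' ?_ _ ?_ ?_
  · intro p hp
    refine h6 p ?_
    rcases List.mem_append.1 hp with h | h
    · exact List.mem_append_left _ (List.mem_append_left _ h)
    · exact List.mem_append_right _ h
  · intro p hp
    exact h6' p (List.mem_append_left _ (List.mem_append_right _ hp))
  · intro v hne p hp
    exact (h5' v (hC v hne)).1 p hp
  · intro u hu
    exact (mem_filter.1 hu).2
  · intro u hu
    exact (h5' u (hC u (mem_filter.1 hu).2)).2

theorem exists_acrit {c τ : ℕ} (hc : 1 ≤ c) (hn : 8 * c ≤ 2 ^ b)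
    {nm : Option (Nd b ((τ + 1) * b) × K) → α} (hnm : Function.Injective nm)
    {P : NBP (α × α) α} {r : ℕ}
    (a : Nd b ((τ + 1) * b) → K)
    (hS : Sound P (nm none) ((flyDag b ((τ + 1) * b) nm hnm).name a (some (root b τ))))
    (hG : AlmostGen P (nm none) r) {l' : List P.Q} {q : P.Q} (hq : q ∈ P.acc)
    (hl' : P.Comp ((flyDag b ((τ + 1) * b) nm hnm).inp a) P.start l' q)
    (hlen : l'.length < 2 ^ τ) :
    ∃ E d, E.card ≤ r ∧ ACrit (flyDag b ((τ + 1) * b) nm hnm) P c τ a E d := by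
  set G := flyDag b ((τ + 1) * b) nm hnm with hGdef
  obtain ⟨E, hE, hEe⟩ := G.exc_of hG hl' hq
  set w := l'.filterMap (nodeOf G P a) with hw
  have hwl : w.length ≤ l'.length := List.length_filterMap_le _ _
  -- covering
  have hcov : ∀ y : Pos b, nd ((τ + 1) * b) (τ * b) y ∈ w := by
    intro y
    obtain ⟨B, hB1, hB2⟩ := needed (b := b) τ y
    obtain ⟨p, hp, hpv⟩ := G.cover' (a := a) hS hl' hq (nd ((τ + 1) * b) (τ * b) y) B hB1
      (fun x hx hne => hB2 x hx hne)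
    rw [hw, List.mem_filterMap]
    exact ⟨p, hp, (nodeOf_eq G P a).2 hpv⟩
  have hRle : τ * b ≤ (τ + 1) * b := by nlinarith
  have hlev : 2 * c ≤ lev w.toFinset (τ * b) := by
    have : (univ : Finset (Pos b)).card ≤ lev w.toFinset (τ * b) := by
      refine card_le_card_of_injOn (fun y => nd ((τ + 1) * b) (τ * b) y) ?_ ?_
      · intro y _
        refine mem_coe.2 (mem_filter.2 ⟨List.mem_toFinset.2 (hcov y), nd_val hRle y⟩)
      · intro y _ y' _ h
        exact (nd_inj hRle hRle h).2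
    have hX : (univ : Finset (Pos b)).card = 2 ^ b := by simp
    omega
  have hex : ∃ w₁ w₂ w₃, w = w₁ ++ w₂ ++ w₃ ∧ ∃ j < τ, c ≤ (opn FChild w₂.toFinset j).card := by
    by_contra hno
    push Not at hno
    have := length_ge (fun q s x y hs h => child_mix hs h x y) hc hn τ hRle w
      (fun w₁ w₂ w₃ h j hj => hno w₁ w₂ w₃ h j hj) hlev
    omega
  obtain ⟨w₁, w₂, w₃, hww, j, hj, hcj⟩ := hex
  rw [hw, List.filterMap_eq_append_iff] at hww
  obtain ⟨k, l₃, rfl, hk, hl₃⟩ := hww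
  rw [List.filterMap_eq_append_iff] at hk
  obtain ⟨l₁, m, rfl, hl₁, hm⟩ := hk
  obtain ⟨q₂, hq₂, h3⟩ := NBP.Comp.split _ hl'
  obtain ⟨q₁, h1, h2⟩ := NBP.Comp.split _ hq₂
  obtain ⟨C, hC, hCc⟩ := exists_subset_card_eq hcj
  have hmem : ∀ v, v ∈ w₂.toFinset ↔ ∃ p ∈ m, Asks G P a p v := by
    intro v
    rw [List.mem_toFinset, ← hm, List.mem_filterMap]
    simp only [nodeOf_eq]
  refine ⟨E, (q₁, q₂, C), hE, l₁, m, l₃, q, h1, h2, h3, hq, hCc, ⟨j, hj, fun u hu => ?_⟩,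
    fun u hu => ?_, hEe⟩
  · exact (mem_filter.1 (hC hu)).2.2.1
  · obtain ⟨_, h4, _, y, hy, huy⟩ := mem_filter.1 (hC hu)
    refine ⟨fun p hp hpu => h4 ((hmem u).2 ⟨p, hp, hpu⟩), y, huy, ?_⟩
    exact (hmem y).1 hy

end

/-- The lower bound: there are inputs `g i` in which `t` is generated, such that every sound program
which is generative up to `r` exceptions and accepts a fraction `2 ^ (-c)` of them, by computations
with fewer than `2 ^ τ` steps (any number of steps if `τ = c`), has at least `2 ^ c` states. -/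
theorem alower {α : Type} [Fintype α] {s t : α} (hst : s ≠ t) {c τ : ℕ} (hτ : 1 ≤ τ) (hτc : τ ≤ c)
    (hα : 2000000000 * (c * τ * (Nat.log 2 c + 4) ^ 3) ≤ Fintype.card α) :
    ∃ (ι : Type) (_ : Fintype ι) (g : ι → α × α → α), Nonempty ι ∧ (∀ i, Gen (g i) s t) ∧
      ∀ (P : NBP (α × α) α) (r : ℕ), 2 * r ≤ c → Sound P s t → AlmostGen P s r →
        Fintype.card ι ≤ 2 ^ c * Nat.card {i // ∃ l, ∃ q ∈ P.acc,
          P.Comp (g i) P.start l q ∧ (l.length < 2 ^ τ ∨ τ = c)} → 2 ^ c ≤ P.size := by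
  have hc : 1 ≤ c := hτ.trans hτc
  -- the parameter `b`
  set b := Nat.clog 2 (8 * c) with hb
  have hn : 8 * c ≤ 2 ^ b := Nat.le_pow_clog (by norm_num) _
  have hb1 : 1 ≤ b := by
    rcases Nat.eq_zero_or_pos b with h | h
    · rw [h] at hn
      omega
    · exact h
  have hp : 2 ^ (b - 1) < 8 * c := Nat.pow_pred_clog_lt_self (by norm_num) (by omega)
  have hb2 : 2 ^ b ≤ 16 * c := by
    have : 2 ^ b = 2 * 2 ^ (b - 1) := by
      rw [← pow_succ']
      congr 1
      omega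
    omega
  have hb3 : b ≤ Nat.log 2 c + 4 := by
    have h1 : c < 2 ^ (Nat.log 2 c + 1) := Nat.lt_pow_succ_log_self (by norm_num) c
    have h2 : 2 ^ (b - 1) < 2 ^ (Nat.log 2 c + 4) := by
      calc 2 ^ (b - 1) < 8 * c := hp
        _ ≤ 8 * 2 ^ (Nat.log 2 c + 1) := by omega
        _ = 2 ^ (Nat.log 2 c + 4) := by rw [pow_succ, pow_add]; ring
    have := (Nat.pow_lt_pow_iff_right (by norm_num : 1 < 2)).1 h2
    omega
  -- the names
  set κ := 6144 * b with hκdef
  have hκ : 1 ≤ κ := by omega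
  have hcardE : Fintype.card (Option (Nd b ((τ + 1) * b) × Fin (κ ^ 2))) ≤
      Fintype.card α := by
    refine le_trans ?_ hα
    rw [Fintype.card_option, Fintype.card_prod, Fintype.card_prod, Fintype.card_fin,
      Fintype.card_fin]
    have hX : Fintype.card (Pos b) = 2 ^ b := by simp
    rw [hX]
    have h1 : (τ + 1) * b + 1 ≤ 3 * (τ * b) := by nlinarith
    have h2 : ((τ + 1) * b + 1) * 2 ^ b * κ ^ 2 ≤ 3 * (τ * b) * (16 * c) * κ ^ 2 :=
      Nat.mul_le_mul_right _ (Nat.mul_le_mul h1 hb2)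
    have h3 : 3 * (τ * b) * (16 * c) * κ ^ 2 = 1811939328 * (c * τ * b ^ 3) := by
      rw [hκdef]
      ring
    have h4 : c * τ * b ^ 3 ≤ c * τ * (Nat.log 2 c + 4) ^ 3 :=
      Nat.mul_le_mul_left _ (Nat.pow_le_pow_left hb3 3)
    have h5 : 1 ≤ c * τ * (Nat.log 2 c + 4) ^ 3 :=
      Nat.succ_le_of_lt (Nat.mul_pos (Nat.mul_pos hc hτ) (pow_pos (by omega) 3))
    omega
  have : NeZero (κ ^ 2) := ⟨by positivity⟩
  obtain ⟨nm, hnm, hnm1, hnm2⟩ := exists_names hcardE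
    (e₁ := none) (e₂ := some (root b τ, (0 : Fin (κ ^ 2)))) (by simp) hst
  set G := flyDag b ((τ + 1) * b) nm hnm with hGdef
  have hGs : G.nm none = s := hnm1
  have hname : ∀ a : Nd b ((τ + 1) * b) → Fin (κ ^ 2), a (root b τ) = 0 →
      G.name a (some (root b τ)) = t := by
    intro a ha
    show nm (some (root b τ, a (root b τ))) = t
    rw [ha, hnm2]
  refine ⟨{a : Nd b ((τ + 1) * b) → Fin (κ ^ 2) // a (root b τ) = 0}, inferInstance,
    fun a => G.inp a.1, ⟨⟨fun _ => 0, rfl⟩⟩, ?_, ?_⟩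
  · rintro ⟨a, ha⟩
    have h1 : Gen (G.inp a) (nm none) (G.name a (some (root b τ))) := gen_all a (root b τ)
    rw [hname a ha, hnm1] at h1
    exact h1
  intro P r hr hS hG hfrac
  let _ := P.fin
  show 2 ^ c ≤ Fintype.card P.Q
  by_contra hlt
  push Not at hlt
  set Y : Finset (Nd b ((τ + 1) * b) → Fin (κ ^ 2)) :=
    univ.filter fun a => a (root b τ) = 0 ∧ ∃ l, ∃ q ∈ P.acc,
      P.Comp (G.inp a) P.start l q ∧ (l.length < 2 ^ τ ∨ τ = c) with hYdef
  have hcr : ∀ a : Nd b ((τ + 1) * b) → Fin (κ ^ 2), ∃ T d, a ∈ Y →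
      T.card ≤ r ∧ ACrit G P c τ a T d := by
    intro a
    by_cases ha : a ∈ Y
    · obtain ⟨_, ha, l, q, hq, hl, hll⟩ := mem_filter.1 ha
      obtain ⟨l', hl', hll'⟩ : ∃ l', P.Comp (G.inp a) P.start l' q ∧ l'.length < 2 ^ τ := by
        rcases hll with h | h
        · exact ⟨l, hl, h⟩
        · obtain ⟨l', h1, h2⟩ := hl.nodup
          exact ⟨l', h1, h2.length_le_card.trans_lt (h ▸ hlt)⟩
      obtain ⟨T, d, hd⟩ := exists_acrit hc hn hnm (P := P) (r := r) a (by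
        show Sound P (G.nm none) (G.name a (some (root b τ)))
        rw [hGs, hname a ha]
        exact hS) (by
        show AlmostGen P (G.nm none) r
        rw [hGs]
        exact hG) hq hl' hll'
      exact ⟨T, d, fun _ => hd⟩
    · exact ⟨∅, (P.start, P.start, ∅), fun h => absurd h ha⟩
  choose T d hd using hcr
  set F : Finset (Finset (Nd b ((τ + 1) * b))) :=
    (range τ).biUnion fun j => powersetCard c (bandSet b ((τ + 1) * b) j) with hF
  have hFC : ∀ C ∈ F, C.card = c ∧ root b τ ∉ C := by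
    intro C hC
    rw [hF, mem_biUnion] at hC
    obtain ⟨j, hj, hC⟩ := hC
    rw [mem_powersetCard] at hC
    refine ⟨hC.2, fun hr => ?_⟩
    have h1 := (mem_filter.1 (hC.1 hr)).2.2
    have h2 : ((root b τ).1 : ℕ) = (τ + 1) * b := nd_val le_rfl _
    have h3 : (j + 1) * b ≤ τ * b := Nat.mul_le_mul_right _ (mem_range.1 hj)
    have h4 : (j + 1) * b = j * b + b := by ring
    have h5 : (τ + 1) * b = τ * b + b := by ring
    omega
  have hYbig : Nat.card {a : Nd b ((τ + 1) * b) → Fin (κ ^ 2) // a (root b τ) = 0} ≤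
      2 ^ c * Y.card := by
    have h2 : Nat.card {i : {a : Nd b ((τ + 1) * b) → Fin (κ ^ 2) // a (root b τ) = 0} //
        ∃ l, ∃ q ∈ P.acc, P.Comp (G.inp i.1) P.start l q ∧ (l.length < 2 ^ τ ∨ τ = c)} =
          Y.card := by
      rw [Nat.card_eq_fintype_card,
        Fintype.card_congr (Equiv.subtypeSubtypeEquivSubtypeInter _
          (fun a => ∃ l, ∃ q ∈ P.acc, P.Comp (G.inp a) P.start l q ∧
            (l.length < 2 ^ τ ∨ τ = c))), Fintype.card_subtype]
    rw [← h2, Nat.card_eq_fintype_card]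
    exact hfrac
  -- the forbidden names
  let N : (Nd b ((τ + 1) * b) → Fin (κ ^ 2)) →
      Finset (Nd b ((τ + 1) * b) × Fin (κ ^ 2)) := fun a =>
    univ.filter fun e => nm (some e) ∈ T a
  have hN : ∀ a ∈ Y, (N a).card ≤ r := by
    intro a ha
    refine le_trans (card_le_card_of_injOn (fun e => nm (some e)) ?_ ?_) (hd a ha).1
    · intro e he
      exact mem_coe.2 (mem_filter.1 (mem_coe.1 he)).2
    · intro e _ e' _ h
      exact Option.some.inj (hnm h)
  have hclean : ∀ a a' : Nd b ((τ + 1) * b) → Fin (κ ^ 2),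
      (∀ e ∈ N a, a e.1 ≠ a' e.1 → e.2 ≠ a' e.1) → G.Clean a a' (T a) := by
    intro a a' h e he u hu h1
    have h2 : nm (some (u, a' u)) ∈ T a := by
      rw [h1] at he
      exact he
    exact h (u, a' u) (mem_filter.2 ⟨mem_univ _, h2⟩) hu rfl
  have hcount := count2 (root b τ) (0 : Fin (κ ^ 2)) c r r (2 ^ c) F hFC Y
    (fun a ha => (mem_filter.1 ha).2.1) hYbig d
    (by
      intro a ha
      obtain ⟨_, _, _, _, _, _, _, _, _, hcc, ⟨j, hj, hjb⟩, _⟩ := hd a ha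
      rw [hF, mem_biUnion]
      exact ⟨j, mem_range.2 hj, mem_powersetCard.2 ⟨fun u hu =>
        mem_filter.2 ⟨mem_univ _, hjb u hu⟩, hcc⟩⟩) N hN
    (by
      intro a ha a' ha' hdd hv h1 h2
      exact acrit_diff (G := G) (by rw [hGs]; exact hG) (hd a ha).2 (hdd ▸ (hd a' ha').2) hv
        (hclean a a' h1) (hclean a' a h2))
  -- numbers
  rw [Fintype.card_fin] at hcount
  have hFcard : F.card ≤ 2 ^ c * (48 * b) ^ c := by
    have h1 : F.card ≤ τ * (b * 2 ^ b).choose c := by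
      rw [hF]
      refine card_biUnion_le.trans ?_
      refine (sum_le_sum fun j _ => ?_ : _ ≤ ∑ _j ∈ range τ, (b * 2 ^ b).choose c).trans ?_
      · rw [card_powersetCard]
        exact Nat.choose_le_choose _ (bandSet_card _ _ _)
      · rw [sum_const, card_range, smul_eq_mul]
    have h2 : (b * 2 ^ b).choose c ≤ (3 * (16 * b)) ^ c := by
      refine choose_le _ _ _ ?_
      calc b * 2 ^ b ≤ b * (16 * c) := Nat.mul_le_mul_left _ hb2
        _ = 16 * b * c := by ring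
    have e : 3 * (16 * b) = 48 * b := by ring
    rw [e] at h2
    exact h1.trans (Nat.mul_le_mul (hτc.trans (Nat.lt_two_pow_self).le) h2)
  have h4 : Fintype.card P.Q ^ 2 < 4 ^ c := by
    calc Fintype.card P.Q ^ 2 < (2 ^ c) ^ 2 := Nat.pow_lt_pow_left hlt (by norm_num)
      _ = 4 ^ c := by rw [← pow_mul, mul_comm, pow_mul]; norm_num
  have hpos : 0 < 2 ^ c * (48 * b) ^ c := by positivity
  have h6 : Fintype.card P.Q ^ 2 * F.card < 4 ^ c * (2 ^ c * (48 * b) ^ c) :=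
    lt_of_le_of_lt (Nat.mul_le_mul_left _ hFcard) (Nat.mul_lt_mul_of_pos_right h4 hpos)
  have h7 : 2 ^ c * (2 ^ (c + r) * (2 ^ c * (κ ^ 2) ^ r)) ≤
      2 ^ c * (4 ^ c * (2 ^ c * κ ^ c)) := by
    have e1 : 2 ^ (c + r) ≤ 4 ^ c := by
      calc 2 ^ (c + r) ≤ 2 ^ (2 * c) := Nat.pow_le_pow_right (by norm_num) (by omega)
        _ = 4 ^ c := by rw [pow_mul]; norm_num
    have e2 : (κ ^ 2) ^ r ≤ κ ^ c := by
      rw [← pow_mul]
      exact Nat.pow_le_pow_right hκ (by omega)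
    exact Nat.mul_le_mul_left _ (Nat.mul_le_mul e1 (Nat.mul_le_mul_left _ e2))
  have h8 : (κ ^ 2) ^ c = 2 ^ c * (4 ^ c * (2 ^ c * κ ^ c)) *
      (4 ^ c * (2 ^ c * (48 * b) ^ c)) := by
    rw [← mul_pow, ← mul_pow, ← mul_pow, ← mul_pow, ← mul_pow, ← mul_pow]
    congr 1
    rw [hκdef]
    ring
  rw [h8] at hcount
  have h9 := Nat.mul_lt_mul_of_le_of_lt h7 h6 (by positivity)
  omega

end Pool.Agent.Lib.BP
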