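import Pool.Agent.Lib.BP.Fly

/-!
# Windows: growth in a band of the butterfly, and the length of sequences with cheap windows
-/

namespace Pool.Agent.Lib.BP

open Classical Finset

variable {b R : ℕ}

/-- Number of nodes of level `i` in `W`. -/
noncomputable def lev (W : Finset (Nd b R)) (i : ℕ) : ℕ := (W.filter fun v => (v.1 : ℕ) = i).card

/-- The open nodes of the band `q` for `W`: the nodes outside `W` of the levels
`q b, …, q b + b - 1` which are in relation `Ch` (child) to a node in `W`. -/
noncomputable def opn (Ch : Nd b R → Nd b R → Prop) (W : Finset (Nd b R)) (q : ℕ) :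
    Finset (Nd b R) :=
  univ.filter fun u => u ∉ W ∧ (q * b ≤ (u.1 : ℕ) ∧ (u.1 : ℕ) < q * b + b) ∧ ∃ v ∈ W, Ch u v

/-- `Ch` contains the edges of the butterfly. -/
def IsFly (Ch : Nd b R → Nd b R → Prop) : Prop :=
  ∀ (q s : ℕ) (x y : Pos b), s < b → q * b + s + 1 ≤ R →
    Ch (nd R (q * b + s) (mix s x y)) (nd R (q * b + s + 1) (mix (s + 1) x y))

variable {Ch : Nd b R → Nd b R → Prop}

theorem mix_inj {s : ℕ} {x y x' y' : Pos b} (h1 : mix s x y = mix s x' y')
    (h2 : mix s y x = mix s y' x') : x = x' ∧ y = y' := by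
  constructor
  · funext j
    have e1 := congrFun h1 j
    have e2 := congrFun h2 j
    by_cases h : (j : ℕ) < s
    · simpa [mix, h] using e1
    · simpa [mix, h] using e2
  · funext j
    have e1 := congrFun h1 j
    have e2 := congrFun h2 j
    by_cases h : (j : ℕ) < s
    · simpa [mix, h] using e2
    · simpa [mix, h] using e1

/-- On the path from `x` (in `W`) to `y` (not in `W`) there is an open node. -/
theorem exists_open (hCh : IsFly Ch) (W : Finset (Nd b R)) {q : ℕ} (hq : q * b + b ≤ R) {x y : Pos b}
    (hx : nd R (q * b + b) x ∈ W) (hy : nd R (q * b) y ∉ W) :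
    ∃ s < b, nd R (q * b + s) (mix s x y) ∈ opn Ch W q := by
  by_contra hno
  push Not at hno
  have key : ∀ t ≤ b, nd R (q * b + (b - t)) (mix (b - t) x y) ∈ W := by
    intro t
    induction t with
    | zero =>
      intro _
      rw [Nat.sub_zero, mix_top]
      exact hx
    | succ t ih =>
      intro ht
      have ih := ih (by omega)
      have hs : b - (t + 1) < b := by omega
      by_contra hW
      refine hno (b - (t + 1)) hs ?_
      have hv : ((nd R (q * b + (b - (t + 1))) (mix (b - (t + 1)) x y)).1 : ℕ) =
          q * b + (b - (t + 1)) := nd_val (by omega) _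
      refine mem_filter.2 ⟨mem_univ _, hW, by rw [hv]; omega, _, ih, ?_⟩
      have h := hCh q (b - (t + 1)) x y hs (by omega)
      have e : b - (t + 1) + 1 = b - t := by omega
      rw [Nat.add_assoc, e] at h
      exact h
  have := key b le_rfl
  rw [Nat.sub_self, mix_zero] at this
  exact hy this

/-- Growth: if a window contains at least `2 c` nodes of level `q b + b` and fewer than `c` open
nodes of the band `q`, then it contains at least `4 c` nodes of level `q b`. -/
theorem band (hCh : IsFly Ch) (W : Finset (Nd b R)) {q c : ℕ} (hq : q * b + b ≤ R) (hc : 1 ≤ c)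
    (hn : 8 * c ≤ 2 ^ b) (hW : 2 * c ≤ lev W (q * b + b)) (ho : (opn Ch W q).card < c) :
    4 * c ≤ lev W (q * b) := by
  -- the set of positions
  set A : Finset (Pos b) := univ.filter fun x => nd R (q * b + b) x ∈ W with hA
  set B : Finset (Pos b) := univ.filter fun y => nd R (q * b) y ∈ W with hB
  have hcard : ∀ i ≤ R, (univ.filter fun x : Pos b => nd R i x ∈ W).card = lev W i := by
    intro i hi
    refine card_bij (fun x _ => nd R i x) ?_ ?_ ?_
    · intro x hx
      rw [mem_filter] at hx ⊢
      exact ⟨hx.2, nd_val hi x⟩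
    · intro x _ y _ h
      exact (nd_inj hi hi h).2
    · intro v hv
      rw [mem_filter] at hv
      have e : nd R i v.2 = v := by
        rw [← hv.2]
        exact (eq_nd v).symm
      exact ⟨v.2, by rw [mem_filter, e]; exact ⟨mem_univ _, hv.1⟩, e⟩
  have hAc : 2 * c ≤ A.card := by
    rw [hA, hcard _ hq]
    exact hW
  have hBc : B.card = lev W (q * b) := by
    rw [hB, hcard _ (by omega)]
  -- the injection
  have hch : ∀ p : Pos b × Pos b, p ∈ A ×ˢ Bᶜ →
      ∃ s < b, nd R (q * b + s) (mix s p.1 p.2) ∈ opn Ch W q := by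
    intro p hp
    rw [mem_product, hA, hB, mem_compl, mem_filter, mem_filter] at hp
    exact exists_open hCh W hq hp.1.2 fun h => hp.2 ⟨mem_univ _, h⟩
  choose! s hs hso using hch
  have hle : (A ×ˢ Bᶜ).card ≤ (opn Ch W q ×ˢ (univ : Finset (Pos b))).card := by
    refine card_le_card_of_injOn
      (fun p => (nd R (q * b + s p) (mix (s p) p.1 p.2), mix (s p) p.2 p.1)) ?_ ?_
    · intro p hp
      exact mem_coe.2 (mem_product.2 ⟨hso p (mem_coe.1 hp), mem_univ _⟩)
    · intro p hp p' hp' h
      have h1 := congrArg Prod.fst h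
      have h2 := congrArg Prod.snd h
      simp only at h1 h2
      have l1 := hs p (mem_coe.1 hp)
      have l2 := hs p' (mem_coe.1 hp')
      obtain ⟨e1, e2⟩ := nd_inj (by omega) (by omega) h1
      have e3 : s p = s p' := by omega
      rw [e3] at e2 h2
      obtain ⟨e4, e5⟩ := mix_inj e2 h2
      exact Prod.ext e4 e5
  rw [card_product, card_product, card_compl, card_univ] at hle
  have hX : Fintype.card (Pos b) = 2 ^ b := by simp
  rw [hX, hBc] at hle
  by_contra hlt
  push Not at hlt
  have h1 : 2 ^ b ≤ 2 * (2 ^ b - lev W (q * b)) := by omega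
  have h2 : (2 * c) * (2 ^ b - lev W (q * b)) ≤ (opn Ch W q).card * 2 ^ b :=
    (Nat.mul_le_mul_right _ hAc).trans hle
  have h3 : (opn Ch W q).card * 2 ^ b ≤ (c - 1) * 2 ^ b := Nat.mul_le_mul_right _ (by omega)
  have h4 : c * 2 ^ b ≤ (2 * c) * (2 ^ b - lev W (q * b)) := by
    calc c * 2 ^ b ≤ c * (2 * (2 ^ b - lev W (q * b))) := Nat.mul_le_mul_left _ h1
      _ = _ := by ring
  have h5 : c * 2 ^ b ≤ (c - 1) * 2 ^ b := h4.trans (h2.trans h3)
  have h6 : c ≤ c - 1 := Nat.le_of_mul_le_mul_right h5 (by positivity)
  omega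

/-- Splitting a sequence. -/
theorem split_list (w : List (Nd b R)) (i m : ℕ) (h : 2 * m ≤ lev w.toFinset i) :
    ∃ w₁ w₂, w = w₁ ++ w₂ ∧ m ≤ lev w₁.toFinset i ∧ m ≤ lev w₂.toFinset i := by
  have h0 : ∃ k, m ≤ lev (w.take k).toFinset i := ⟨w.length, by rw [List.take_length]; omega⟩
  refine ⟨w.take (Nat.find h0), w.drop (Nat.find h0), (List.take_append_drop _ _).symm,
    Nat.find_spec h0, ?_⟩
  have hle : lev (w.take (Nat.find h0)).toFinset i ≤ m := by
    rcases Nat.eq_zero_or_pos (Nat.find h0) with hk | hk
    · rw [hk]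
      simp [lev]
    · have hlt := Nat.find_min h0 (m := Nat.find h0 - 1) (by omega)
      push Not at hlt
      have : lev (w.take (Nat.find h0)).toFinset i ≤
          lev (w.take (Nat.find h0 - 1)).toFinset i + 1 := by
        have hsub : (w.take (Nat.find h0)).toFinset ⊆
            (w.take (Nat.find h0 - 1)).toFinset ∪ (w[Nat.find h0 - 1]?.toList).toFinset := by
          intro v hv
          rw [List.mem_toFinset] at hv
          have e : Nat.find h0 = Nat.find h0 - 1 + 1 := by omega
          rw [e, List.take_add_one, List.mem_append] at hv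
          rw [mem_union, List.mem_toFinset, List.mem_toFinset]
          exact hv
        unfold lev
        refine (card_le_card (filter_subset_filter _ hsub)).trans ?_
        rw [filter_union]
        refine (card_union_le _ _).trans (Nat.add_le_add_left ?_ _)
        refine (card_le_card (filter_subset _ _)).trans ?_
        refine (List.toFinset_card_le _).trans ?_
        cases w[Nat.find h0 - 1]? <;> simp
      omega
  have hsum : lev w.toFinset i ≤ lev (w.take (Nat.find h0)).toFinset i +
      lev (w.drop (Nat.find h0)).toFinset i := by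
    have hw : w.toFinset ⊆ (w.take (Nat.find h0)).toFinset ∪ (w.drop (Nat.find h0)).toFinset := by
      intro v hv
      rw [List.mem_toFinset, ← List.take_append_drop (Nat.find h0) w, List.mem_append] at hv
      rw [mem_union, List.mem_toFinset, List.mem_toFinset]
      exact hv
    unfold lev
    refine (card_le_card (filter_subset_filter _ hw)).trans ?_
    rw [filter_union]
    exact card_union_le _ _
  omega

/-- A sequence with at least `2 c` nodes of level `q b` all of whose windows are cheap has length at
least `2 ^ q`. -/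
theorem length_ge (hCh : IsFly Ch) {c : ℕ} (hc : 1 ≤ c) (hn : 8 * c ≤ 2 ^ b) :
    ∀ (q : ℕ), q * b ≤ R → ∀ w : List (Nd b R),
      (∀ w₁ w₂ w₃, w = w₁ ++ w₂ ++ w₃ → ∀ j < q, (opn Ch w₂.toFinset j).card < c) →
      2 * c ≤ lev w.toFinset (q * b) → 2 ^ q ≤ w.length := by
  intro q
  induction q with
  | zero =>
    intro _ w _ h
    have : w ≠ [] := by
      rintro rfl
      simp [lev] at h
      omega
    exact List.length_pos_iff.2 this
  | succ q ih =>
    intro hR w hw h
    have hR' : q * b + b ≤ R := by
      have : (q + 1) * b = q * b + b := by ring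
      omega
    have e : (q + 1) * b = q * b + b := by ring
    rw [e] at h
    have h4 := band hCh w.toFinset hR' hc hn h (hw [] w [] (by simp) q (by omega))
    obtain ⟨w₁, w₂, rfl, h1, h2⟩ := split_list w (q * b) (2 * c) (by omega)
    have l1 := ih (by omega) w₁ (fun x y z hxyz j hj =>
      hw x y (z ++ w₂) (by rw [hxyz]; simp) j (by omega)) h1
    have l2 := ih (by omega) w₂ (fun x y z hxyz j hj =>
      hw (w₁ ++ x) y z (by rw [hxyz]; simp) j (by omega)) h2
    rw [List.length_append, pow_succ]
    omega

end Pool.Agent.Lib.BP
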