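import Mathlib

/-!
# Counting
-/

namespace Pool.Agent.Lib.BP

open Finset

/-- If the labelling `a` (with the given value at the root) is determined by two states, a set `C`
of `c` nodes from the family `F`, and the labels outside `C`, then `k ^ c ≤ S ^ 2 |F|`. -/
theorem count {V K Q : Type} [Fintype V] [Fintype K] [Fintype Q] [DecidableEq V] [DecidableEq K]
    [DecidableEq Q] (r : V) (x₀ : K) (c : ℕ) (F : Finset (Finset V))
    (hF : ∀ C ∈ F, C.card = c ∧ r ∉ C) (d : (V → K) → Q × Q × Finset V)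
    (hd : ∀ a, a r = x₀ → (d a).2.2 ∈ F)
    (hinj : ∀ a b, a r = x₀ → b r = x₀ → d a = d b → (∀ v, v ∉ (d a).2.2 → a v = b v) → a = b) :
    Fintype.card K ^ c ≤ Fintype.card Q ^ 2 * F.card := by
  set L : Finset (V → K) := Fintype.piFinset fun v => if v = r then {x₀} else univ with hL
  set T : Finset V → Finset (V → K) :=
    fun C => Fintype.piFinset fun v => if v = r ∨ v ∈ C then {x₀} else univ with hT
  have hLm : ∀ a, a ∈ L ↔ a r = x₀ := by
    intro a
    rw [hL, Fintype.mem_piFinset]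
    constructor
    · intro h
      simpa using h r
    · intro h v
      by_cases hv : v = r
      · subst hv
        simpa using h
      · simp [hv]
  have hkc : ∀ C ∈ F, (T C).card * Fintype.card K ^ c = L.card := by
    intro C hC
    obtain ⟨h1, h2⟩ := hF C hC
    rw [hT, hL, Fintype.card_piFinset, Fintype.card_piFinset]
    have e : Fintype.card K ^ c = ∏ v : V, (if v ∈ C then Fintype.card K else 1) := by
      rw [prod_ite_mem, prod_const, univ_inter, h1]
    rw [e, ← prod_mul_distrib]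
    refine prod_congr rfl fun v _ => ?_
    by_cases hv : v = r
    · subst hv
      simp [h2]
    · by_cases hvC : v ∈ C
      · simp [hv, hvC]
      · simp [hv, hvC]
  have hLne : (fun _ => x₀) ∈ L := (hLm _).2 rfl
  have hC₀ := hd (fun _ => x₀) rfl
  set C₀ := (d fun _ => x₀).2.2
  have hKpos : 0 < Fintype.card K := Fintype.card_pos_iff.2 ⟨x₀⟩
  have hTeq : ∀ C ∈ F, (T C).card = (T C₀).card := by
    intro C hC
    have := (hkc C hC).trans (hkc C₀ hC₀).symm
    exact Nat.eq_of_mul_eq_mul_right (pow_pos hKpos c) this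
  -- the injection
  have hle : L.card ≤ ((univ : Finset (Q × Q)) ×ˢ F.sigma T).card := by
    refine card_le_card_of_injOn
      (fun a => (((d a).1, (d a).2.1), ⟨(d a).2.2, fun v => if v ∈ (d a).2.2 then x₀ else a v⟩)) ?_ ?_
    · intro a ha
      have ha := (hLm a).1 (mem_coe.1 ha)
      refine mem_coe.2 (mem_product.2 ⟨mem_univ _, mem_sigma.2 ⟨hd a ha, ?_⟩⟩)
      rw [hT, Fintype.mem_piFinset]
      intro v
      by_cases hvC : v ∈ (d a).2.2
      · simp [hvC]
      · by_cases hv : v = r
        · subst hv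
          simp [hvC, ha]
        · simp [hv, hvC]
    · intro a ha b hb h
      have ha := (hLm a).1 (mem_coe.1 ha)
      have hb := (hLm b).1 (mem_coe.1 hb)
      simp only [Prod.mk.injEq, Sigma.mk.injEq] at h
      obtain ⟨⟨h1, h2⟩, h3, h4⟩ := h
      refine hinj a b ha hb (Prod.ext h1 (Prod.ext h2 h3)) fun v hv => ?_
      have h4 := congrFun (eq_of_heq h4) v
      rw [if_neg hv, if_neg (h3 ▸ hv)] at h4
      exact h4
  rw [card_product, card_sigma, sum_congr rfl hTeq, sum_const, smul_eq_mul, card_univ,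
    Fintype.card_prod, ← hkc C₀ hC₀] at hle
  have hpos : 0 < (T C₀).card := by
    rcases Nat.eq_zero_or_pos (T C₀).card with h | h
    · have := hkc C₀ hC₀
      rw [h, Nat.zero_mul] at this
      exact absurd this.symm (card_ne_zero_of_mem hLne)
    · exact h
  refine Nat.le_of_mul_le_mul_left ?_ hpos
  calc (T C₀).card * Fintype.card K ^ c ≤ _ := hle
    _ = (T C₀).card * (Fintype.card Q ^ 2 * F.card) := by ring

/-- `n choose c ≤ (3 n / c) ^ c`, in the form needed. -/
theorem choose_le (n c M : ℕ) (hM : n ≤ M * c) : n.choose c ≤ (3 * M) ^ c := by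
  have h1 : (n.choose c : ℝ) ≤ (n : ℝ) ^ c / (c.factorial : ℝ) := by
    have := Nat.choose_le_pow_div c n (α := ℝ)
    exact this
  have h2 : (c : ℝ) ^ c / (c.factorial : ℝ) ≤ 3 ^ c := by
    refine (Real.pow_div_factorial_le_exp (c : ℝ) (Nat.cast_nonneg c) c).trans ?_
    have h3 : Real.exp 1 ≤ 3 := by
      have := Real.exp_one_lt_d9
      linarith
    calc Real.exp (c : ℝ) = Real.exp 1 ^ c := by rw [← Real.exp_nat_mul, mul_one]
      _ ≤ 3 ^ c := pow_le_pow_left₀ (Real.exp_pos 1).le h3 c
  have h3 : (n.choose c : ℝ) ≤ ((3 * M) ^ c : ℕ) := by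
    refine h1.trans ?_
    have h4 : (n : ℝ) ^ c ≤ ((M : ℝ) * c) ^ c :=
      pow_le_pow_left₀ (Nat.cast_nonneg n) (by exact_mod_cast hM) c
    have hf : (0 : ℝ) < c.factorial := by exact_mod_cast c.factorial_pos
    calc (n : ℝ) ^ c / (c.factorial : ℝ) ≤ ((M : ℝ) * c) ^ c / (c.factorial : ℝ) :=
          div_le_div_of_nonneg_right h4 hf.le
      _ = (M : ℝ) ^ c * ((c : ℝ) ^ c / (c.factorial : ℝ)) := by rw [mul_pow]; ring
      _ ≤ (M : ℝ) ^ c * 3 ^ c := mul_le_mul_of_nonneg_left h2 (by positivity)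
      _ = ((3 * M) ^ c : ℕ) := by push_cast; rw [mul_pow]; ring
  exact_mod_cast h3

end Pool.Agent.Lib.BP
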