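import Mathlib

/-!
# Nondeterministic branching programs

The inputs are functions `f : A → B` (`A` the set of the addresses, `B` the set of the values).
-/

namespace Pool.Agent.Lib.BP

/-- A nondeterministic branching program for inputs `f : A → B`. A state `q` with
`query q = some e` asks for the value `f e`; a state with `query q = none` asks nothing.
`next q o` is the set of the states which can follow `q` when the answer is `o` (`o = none` if
nothing was asked). The size is the number of states. -/
structure NBP (A B : Type) : Type 1 where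
  Q : Type
  fin : Fintype Q
  start : Q
  acc : Set Q
  query : Q → Option A
  next : Q → Option B → Set Q

namespace NBP

variable {A B : Type}

/-- The number of states. -/
def size (P : NBP A B) : ℕ := @Fintype.card P.Q P.fin

/-- `P.Comp f q l q'`: on the input `f` there is a computation of `P` which starts in `q`, makes a
step in each of the states of the list `l` (in this order), and ends in `q'`. -/
inductive Comp (P : NBP A B) (f : A → B) : P.Q → List P.Q → P.Q → Prop
  | nil (q : P.Q) : Comp P f q [] q
  | cons (q q₁ : P.Q) (l : List P.Q) (q' : P.Q) :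
      q₁ ∈ P.next q ((P.query q).map f) → Comp P f q₁ l q' → Comp P f q (q :: l) q'

/-- `P` accepts the input `f`: there is an accepting computation. -/
def Accepts (P : NBP A B) (f : A → B) : Prop := ∃ l, ∃ q ∈ P.acc, P.Comp f P.start l q

variable {P : NBP A B} {f f' : A → B} {q q₁ q₂ q' : P.Q} {l l₁ l₂ : List P.Q}

theorem Comp.append (h₁ : P.Comp f q l₁ q₁) (h₂ : P.Comp f q₁ l₂ q') :
    P.Comp f q (l₁ ++ l₂) q' := by
  induction h₁ with
  | nil q => exact h₂
  | cons q q₃ l q₄ hs _ ih => exact .cons q q₃ _ q' hs (ih h₂)

theorem Comp.split (l₁ : List P.Q) (h : P.Comp f q (l₁ ++ l₂) q') :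
    ∃ q₁, P.Comp f q l₁ q₁ ∧ P.Comp f q₁ l₂ q' := by
  induction l₁ generalizing q with
  | nil => exact ⟨q, .nil q, h⟩
  | cons a l ih =>
    cases h with
    | cons _ q₃ _ _ hs h' =>
      obtain ⟨q₁, h1, h2⟩ := ih h'
      exact ⟨q₁, .cons _ q₃ _ _ hs h1, h2⟩

/-- A computation depends only on the answers. -/
theorem Comp.congr (h : P.Comp f q l q') (hf : ∀ p ∈ l, ∀ e, P.query p = some e → f' e = f e) :
    P.Comp f' q l q' := by
  induction h with
  | nil q => exact .nil q
  | cons q q₁ l q' hs _ ih =>
    refine .cons q q₁ l q' ?_ (ih fun p hp => hf p (List.mem_cons_of_mem _ hp))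
    have := hf q List.mem_cons_self
    revert hs this
    cases P.query q with
    | none => exact fun hs _ => hs
    | some p =>
      intro hs this
      simp only [Option.map_some] at hs ⊢
      rw [this p rfl]
      exact hs

theorem Comp.head (h : P.Comp f q (q₁ :: l) q') : q = q₁ := by
  cases h
  rfl

/-- Every computation can be shortened to one without repeated states. -/
theorem Comp.nodup (h : P.Comp f q l q') : ∃ l', P.Comp f q l' q' ∧ l'.Nodup := by
  induction h with
  | nil q => exact ⟨[], .nil q, List.nodup_nil⟩
  | cons q q₁ l q' hs _ ih =>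
    obtain ⟨l', h1, h2⟩ := ih
    by_cases hq : q ∈ l'
    · obtain ⟨x, y, rfl⟩ := List.append_of_mem hq
      obtain ⟨q₂, _, h3⟩ := Comp.split x h1
      have : q₂ = q := h3.head
      subst this
      exact ⟨q₂ :: y, h3, (List.nodup_append.1 h2).2.1⟩
    · exact ⟨q :: l', .cons q q₁ l' q' hs h1, List.nodup_cons.2 ⟨hq, h2⟩⟩

end NBP

end Pool.Agent.Lib.BP
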