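import Pool.Agent.Lib.BP.Eval

/-!
# Inputs for labellings, the exchange lemma and the covering lemma for thrifty programs
-/

namespace Pool.Agent.Lib.BP

open Classical

variable {V K : Type} (ch : V → Option (V × V)) (z : K) (a b : V → K)

/-- The address of the true entry of the node `v`. -/
def entry (v : V) : Addr V K := (v, (ch v).map fun p => (a p.1, a p.2))

/-- The input for the labelling `a`: the true entry of `v` is `a v`, the other entries are `z`. -/
noncomputable def einp (e : Addr V K) : K := if e = entry ch a e.1 then a e.1 else z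

theorem einp_entry (v : V) : einp ch z a (entry ch a v) = a v := if_pos rfl

variable {ch z a b}

theorem entry_inj {v w : V} (h : entry ch a v = entry ch a w) : v = w := congrArg Prod.fst h

theorem entry_leaf {v : V} (h : ch v = none) : entry ch a v = (v, none) := by
  rw [entry, h]
  rfl

theorem entry_node {v u w : V} (h : ch v = some (u, w)) :
    entry ch a v = (v, some (a u, a w)) := by
  rw [entry, h]
  rfl

/-- The values on the input of a labelling. -/
theorem val_einp {v : V} {x : K} (h : Val ch (einp ch z a) v x) : x = a v := by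
  induction h with
  | leaf v h =>
    rw [← entry_leaf (a := a) h, einp_entry]
  | node v u w x y h _ _ h1 h2 =>
    rw [h1, h2, ← entry_node (a := a) h, einp_entry]

theorem val_self {rank : V → ℕ} (hr : ∀ u v, IsChild ch u v → rank u < rank v) (v : V) :
    Val ch (einp ch z a) v (a v) := by
  have key : ∀ n, ∀ v, rank v < n → Val ch (einp ch z a) v (a v) := by
    intro n
    induction n with
    | zero => exact fun v h => absurd h (Nat.not_lt_zero _)
    | succ n ih =>
      intro v hv
      rcases hc : ch v with _ | ⟨u, w⟩
      · have := Val.leaf (f := einp ch z a) v hc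
        rw [← entry_leaf (a := a) hc, einp_entry] at this
        exact this
      · have hu := hr u v ⟨w, .inl hc⟩
        have hw := hr w v ⟨u, .inr hc⟩
        have := Val.node (f := einp ch z a) v u w _ _ hc (ih u (by omega)) (ih w (by omega))
        rw [← entry_node (a := a) hc, einp_entry] at this
        exact this
  exact key _ v (Nat.lt_succ_self _)

/-- On the path of a labelling only true entries of inner nodes are asked. -/
theorem thrifty_asks {P : NBP (Addr V K) K} (hP : Thrifty ch P) {l : List P.Q} {q : P.Q}
    (h : P.Comp (einp ch z a) P.start l q) (hq : q ∈ P.acc) {p : P.Q} (hp : p ∈ l) {v : V} {x y : K}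
    (hpv : P.query p = some (v, some (x, y))) : (v, some (x, y)) = entry ch a v := by
  obtain ⟨u, w, hc, h1, h2⟩ := hP _ l q hq h p hp v x y hpv
  rw [entry_node hc, val_einp h1, val_einp h2]

/-- The exchange lemma for thrifty programs. -/
theorem eexchange {P : NBP (Addr V K) K} (hP : Thrifty ch P) {l₁ m m' l₃ n₁ n₃ : List P.Q}
    {q₁ q₂ q₃ q₄ : P.Q} (hbz : ∀ v, b v ≠ z)
    (ha₁ : P.Comp (einp ch z a) P.start l₁ q₁)
    (ha' : P.Comp (einp ch z a) q₁ m' q₂) (ha₃ : P.Comp (einp ch z a) q₂ l₃ q₃) (hq₃ : q₃ ∈ P.acc)
    (hb₁ : P.Comp (einp ch z b) P.start n₁ q₁) (hb : P.Comp (einp ch z b) q₁ m q₂)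
    (hb₃ : P.Comp (einp ch z b) q₂ n₃ q₄) (hq₄ : q₄ ∈ P.acc)
    (hD : ∀ v, a v ≠ b v → ∀ p ∈ m, P.query p ≠ some (entry ch b v))
    {u y : V} (hu : a u ≠ b u) (huy : IsChild ch u y) {p : P.Q} (hp : p ∈ m)
    (hpy : P.query p = some (entry ch b y)) : False := by
  have hA := (ha₁.append ha').append ha₃
  have hB := (hb₁.append hb).append hb₃
  -- the mixed input
  let g : Addr V K → K := fun e =>
    if ∃ r ∈ m, P.query r = some e then einp ch z b e else einp ch z a e
  have hg : ∀ r ∈ l₁ ++ m' ++ l₃, ∀ e, P.query r = some e → g e = einp ch z a e := by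
    rintro r hr ⟨v, o⟩ hq
    show (if _ then _ else _) = _
    split_ifs with h
    · obtain ⟨r', hr', hq'⟩ := h
      cases o with
      | none =>
        cases hc : ch v with
        | none =>
          have e1 : (v, none) = entry ch a v := (entry_leaf hc).symm
          have e2 : (v, none) = entry ch b v := (entry_leaf hc).symm
          have hav : a v = b v := by
            by_contra hne
            exact hD v hne r' hr' (by rw [hq', e2])
          show einp ch z b (v, none) = einp ch z a (v, none)
          nth_rewrite 1 [e2]
          rw [e1, einp_entry, einp_entry, hav]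
        | some c =>
          have e1 : (v, (none : Option (K × K))) ≠ entry ch a v := by
            rw [entry, hc]
            simp
          have e2 : (v, (none : Option (K × K))) ≠ entry ch b v := by
            rw [entry, hc]
            simp
          show (if _ then _ else _) = (if _ then _ else _)
          rw [if_neg e1, if_neg e2]
      | some xy =>
        obtain ⟨x, y⟩ := xy
        have e1 := thrifty_asks hP hA hq₃ hr hq
        have e2 := thrifty_asks hP hB hq₄ (p := r') (by simp [hr']) hq'
        have hav : a v = b v := by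
          by_contra hne
          exact hD v hne r' hr' (by rw [hq', ← e2])
        nth_rewrite 1 [e2]
        rw [e1, einp_entry, einp_entry, hav]
    · rfl
  have hg' : ∀ r ∈ m, ∀ e, P.query r = some e → g e = einp ch z b e := by
    intro r hr e hq
    exact if_pos ⟨r, hr, hq⟩
  have hc : P.Comp g P.start (l₁ ++ m ++ l₃) q₃ :=
    ((ha₁.congr fun r hr => hg r (by simp [hr])).append (hb.congr hg')).append
      (ha₃.congr fun r hr => hg r (by simp [hr]))
  have key : ∀ x, Val ch g u x → x ≠ b u := by
    have hval : ∀ e : Addr V K, e.1 = u → (∀ r ∈ m, P.query r = some e → False) → g e ≠ b u := by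
      intro e he hno
      have : g e = einp ch z a e := if_neg (fun ⟨r, hr, hq⟩ => hno r hr hq)
      rw [this, einp]
      split_ifs with h
      · rw [he]
        exact hu
      · exact (hbz u).symm
    intro x hx
    cases hx with
    | leaf _ hl =>
      refine hval _ rfl fun r hr hq => hD u hu r hr ?_
      rw [hq, entry_leaf hl]
    | node _ u' w' x' y' hn _ _ =>
      refine hval _ rfl fun r hr hq => hD u hu r hr ?_
      rw [hq, thrifty_asks hP hB hq₄ (p := r) (by simp [hr]) hq]
  obtain ⟨w, hw⟩ := huy
  rcases hw with hw | hw
  · rw [entry_node hw] at hpy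
    obtain ⟨u', w', hc', h1, _⟩ := hP g _ q₃ hq₃ hc p (by simp [hp]) _ _ _ hpy
    rw [hw] at hc'
    simp only [Option.some.injEq, Prod.mk.injEq] at hc'
    rw [← hc'.1] at h1
    exact key _ h1 rfl
  · rw [entry_node hw] at hpy
    obtain ⟨u', w', hc', _, h2⟩ := hP g _ q₃ hq₃ hc p (by simp [hp]) _ _ _ hpy
    rw [hw] at hc'
    simp only [Option.some.injEq, Prod.mk.injEq] at hc'
    rw [← hc'.2] at h2
    exact key _ h2 rfl

/-- The covering lemma. -/
theorem ecover {P : NBP (Addr V K) K} {r : V} (haz : ∀ v, a v ≠ z)
    (hS : SolvesEval ch r (a r) P) {l : List P.Q} {q : P.Q}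
    (h : P.Comp (einp ch z a) P.start l q) (hq : q ∈ P.acc) (v : V)
    (B : Set V) (hr : r ∈ B) (hB : ∀ x ∈ B, x ≠ v → ∃ u ∈ B, IsChild ch u x) :
    ∃ p ∈ l, P.query p = some (entry ch a v) := by
  by_contra hno
  push Not at hno
  let g : Addr V K → K := fun e => if e = entry ch a v then z else einp ch z a e
  have hc : P.Comp g P.start l q := by
    refine h.congr fun p hp e hq => ?_
    refine if_neg ?_
    rintro rfl
    exact hno p hp hq
  have hval := (hS g).1 ⟨l, q, hq, hc⟩
  have hgz : ∀ e : Addr V K, g e = z ∨ (e ≠ entry ch a v ∧ e = entry ch a e.1 ∧ g e = a e.1) := by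
    intro e
    by_cases h1 : e = entry ch a v
    · exact .inl (if_pos h1)
    · have h2 : g e = einp ch z a e := if_neg h1
      by_cases h3 : e = entry ch a e.1
      · exact .inr ⟨h1, h3, by rw [h2, einp, if_pos h3]⟩
      · exact .inl (by rw [h2, einp, if_neg h3])
  have key : ∀ y x, Val ch g y x → y ∈ B → x ≠ a y := by
    intro y x hx
    induction hx with
    | leaf y hl =>
      intro hy
      rcases hgz (y, none) with h1 | ⟨h1, _, h3⟩
      · rw [h1]
        exact (haz y).symm
      · exfalso
        by_cases hyv : y = v
        · subst hyv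
          exact h1 (entry_leaf hl).symm
        · obtain ⟨u, _, w, hw⟩ := hB y hy hyv
          rw [hl] at hw
          simp at hw
    | node y u w x' y' hn _ _ ih1 ih2 =>
      intro hy
      rcases hgz (y, some (x', y')) with h1 | ⟨h1, h2, _⟩
      · rw [h1]
        exact (haz y).symm
      · exfalso
        have h2' : ((y, some (x', y')) : Addr V K) = entry ch a y := h2
        by_cases hyv : y = v
        · subst hyv
          exact h1 h2'
        · rw [entry_node hn] at h2'
          simp only [Prod.mk.injEq, Option.some.injEq, true_and] at h2'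
          obtain ⟨u', hu', w', hw'⟩ := hB y hy hyv
          rw [hn] at hw'
          simp only [Option.some.injEq, Prod.mk.injEq] at hw'
          rcases hw' with ⟨rfl, rfl⟩ | ⟨rfl, rfl⟩
          · exact ih1 hu' h2'.1
          · exact ih2 hu' h2'.2
  exact key r (a r) hval hr rfl

end Pool.Agent.Lib.BP
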