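import Pool.Agent.Lib.BP.Fly

/-!
# The butterfly: all names are generated, and the nodes of a level are necessary for the root
-/

namespace Pool.Agent.Lib.BP

open Classical

variable {α K : Type} {b R : ℕ}

/-- The DAG with names. -/
noncomputable def flyDag (b R : ℕ) (nm : Option (Nd b R × K) → α) (h : Function.Injective nm) :
    Dag α (Nd b R) K := ⟨fch b R, fch_injective, nm, h⟩

variable {nm : Option (Nd b R × K) → α} {hnm : Function.Injective nm}

/-- All names are generated. -/
theorem gen_all (a : Nd b R → K) (v : Nd b R) :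
    Gen ((flyDag b R nm hnm).inp a) (nm none) ((flyDag b R nm hnm).name a (some v)) := by
  set G := flyDag b R nm hnm with hG
  have h0 : ∀ k : ℕ, ∀ x : Pos b, (enum b x : ℕ) = k →
      Gen (G.inp a) (nm none) (G.name a (some (nd R 0 x))) := by
    intro k
    induction k with
    | zero =>
      intro x hx
      have hc : G.ch (nd R 0 x) = (none, none) := by
        show fch b R (nd R 0 x) = _
        rw [fch_zero, pred, if_pos hx]
      have := G.inp_ch (a := a) (nd R 0 x)
      rw [hc] at this
      rw [← this]
      exact .mul _ _ .base .base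
    | succ k ih =>
      intro x hx
      have hlt : k < 2 ^ b := by have := (enum b x).2; omega
      have hc : G.ch (nd R 0 x) = (none, some (nd R 0 ((enum b).symm ⟨k, hlt⟩))) := by
        show fch b R (nd R 0 x) = _
        rw [fch_zero, pred, if_neg (by omega)]
        simp only [hx, Nat.add_sub_cancel]
      have := G.inp_ch (a := a) (nd R 0 x)
      rw [hc] at this
      rw [← this]
      exact .mul _ _ .base (ih _ (by simp))
  have h1 : ∀ i : ℕ, i ≤ R → ∀ x : Pos b,
      Gen (G.inp a) (nm none) (G.name a (some (nd R i x))) := by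
    intro i
    induction i with
    | zero => exact fun _ x => h0 _ x rfl
    | succ i ih =>
      intro hi x
      have hc : G.ch (nd R (i + 1) x) = (some (nd R i x), some (nd R i (flip x (i % b)))) :=
        fch_succ hi x
      have := G.inp_ch (a := a) (nd R (i + 1) x)
      rw [hc] at this
      rw [← this]
      exact .mul _ _ (ih (by omega) _) (ih (by omega) _)
  rw [eq_nd v]
  exact h1 _ (by have := v.1.2; omega) _

/-- The root. -/
def root (b r : ℕ) : Nd b ((r + 1) * b) := nd ((r + 1) * b) ((r + 1) * b) fun _ => false

/-- The root is not a child. -/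
theorem not_child_top {v w : Nd b R} (hb : 0 < R) (hw : (w.1 : ℕ) = R) : ¬ FChild w v := by
  rw [eq_nd v]
  intro h
  have hv := v.1.2
  rcases Nat.eq_zero_or_pos (v.1 : ℕ) with h0 | h0
  · rw [h0] at h
    unfold FChild at h
    rw [fch_zero] at h
    rcases h with h | h
    · simp at h
    · by_cases hx : (enum b v.2 : ℕ) = 0
      · rw [pred, if_pos hx] at h
        simp at h
      · rw [pred, if_neg hx] at h
        simp only [Option.some.injEq] at h
        rw [← h, nd_val (Nat.zero_le R)] at hw
        omega
  · obtain ⟨i, hi⟩ : ∃ i, (v.1 : ℕ) = i + 1 := ⟨(v.1 : ℕ) - 1, by omega⟩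
    rw [hi] at h
    unfold FChild at h
    rw [fch_succ (by omega)] at h
    rcases h with h | h
    · simp only [Option.some.injEq] at h
      rw [← h, nd_val (by omega)] at hw
      omega
    · simp only [Option.some.injEq] at h
      rw [← h, nd_val (by omega)] at hw
      omega

/-- The nodes of level `r * b` are necessary for the root. -/
theorem needed (r : ℕ) (y : Pos b) : ∃ B : Set (Nd b ((r + 1) * b)), root b r ∈ B ∧
    ∀ x ∈ B, x ≠ nd ((r + 1) * b) (r * b) y → ∃ u ∈ B, FChild u x := by
  have hR : (r + 1) * b = r * b + b := by ring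
  refine ⟨{v | ∃ s ≤ b, v = nd ((r + 1) * b) (r * b + s) (mix s (fun _ => false) y)}, ?_, ?_⟩
  · refine ⟨b, le_rfl, ?_⟩
    rw [mix_top, ← hR]
    rfl
  · rintro x ⟨s, hs, rfl⟩ hne
    cases s with
    | zero =>
      exact absurd (by rw [mix_zero]; rfl) hne
    | succ s =>
      exact ⟨_, ⟨s, by omega, rfl⟩, child_mix (by omega) (by omega) _ _⟩

end Pool.Agent.Lib.BP
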