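import Pool.Agent.Lib.BP.Gens
import Pool.Agent.Lib.BP.Band
import Pool.Agent.Lib.BP.Count

/-!
# The lower bound
-/

namespace Pool.Agent.Lib.BP

open Classical Finset

section

variable {α V K : Type} (G : Dag α V K) (P : NBP (α × α) α) (a : V → K)

/-- The entry of the node `v` is asked in the state `p`. -/
def Asks (p : P.Q) (v : V) : Prop := P.query p = some (G.name a (G.ch v).1, G.name a (G.ch v).2)

theorem asks_unique {p : P.Q} {v w : V} (hv : Asks G P a p v) (hw : Asks G P a p w) : v = w := by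
  have h := hv.symm.trans hw
  simp only [Option.some.injEq, Prod.mk.injEq] at h
  exact G.inj (Prod.ext (G.name_eq h.1).1 (G.name_eq h.2).1)

/-- The node whose entry is asked in the state `p`. -/
noncomputable def nodeOf (p : P.Q) : Option V :=
  if h : ∃ v, Asks G P a p v then some h.choose else none

theorem nodeOf_eq {p : P.Q} {v : V} : nodeOf G P a p = some v ↔ Asks G P a p v := by
  constructor
  · intro h
    by_cases h' : ∃ v, Asks G P a p v
    · rw [nodeOf, dif_pos h'] at h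
      simp only [Option.some.injEq] at h
      exact h ▸ h'.choose_spec
    · rw [nodeOf, dif_neg h'] at h
      simp at h
  · intro h
    have h' : ∃ v, Asks G P a p v := ⟨v, h⟩
    rw [nodeOf, dif_pos h', asks_unique G P a h'.choose_spec h]

end

section

variable {α K : Type} {b R : ℕ}

/-- The data for a labelling: two states and a set of open nodes. -/
def Crit (G : Dag α (Nd b R) K) (P : NBP (α × α) α) (c : ℕ) (a : Nd b R → K)
    (d : P.Q × P.Q × Finset (Nd b R)) : Prop :=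
  ∃ l₁ m l₃ q₃, P.Comp (G.inp a) P.start l₁ d.1 ∧ P.Comp (G.inp a) d.1 m d.2.1 ∧
    P.Comp (G.inp a) d.2.1 l₃ q₃ ∧ q₃ ∈ P.acc ∧ d.2.2.card = c ∧
    (∃ j < c, ∀ u ∈ d.2.2, j * b ≤ (u.1 : ℕ) ∧ (u.1 : ℕ) < j * b + b) ∧
    ∀ u ∈ d.2.2, (∀ p ∈ m, ¬ Asks G P a p u) ∧ ∃ y, G.Child u y ∧ ∃ p ∈ m, Asks G P a p y

theorem crit_inj {G : Dag α (Nd b R) K} {P : NBP (α × α) α} (hG : Generative P (G.nm none))
    {c : ℕ}
    {a a' : Nd b R → K} {d : P.Q × P.Q × Finset (Nd b R)} (h : Crit G P c a d)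
    (h' : Crit G P c a' d) (hv : ∀ v, v ∉ d.2.2 → a v = a' v) : a = a' := by
  by_contra hne
  obtain ⟨u, hu⟩ := Function.ne_iff.1 hne
  obtain ⟨l₁, m, l₃, q₃, h1, h2, h3, h4, _⟩ := h
  obtain ⟨n₁, m', n₃, q₄, h1', h2', h3', h4', _, _, h5'⟩ := h'
  have hC : ∀ v, a v ≠ a' v → v ∈ d.2.2 := fun v hne => by
    by_contra hn
    exact hne (hv v hn)
  obtain ⟨_, y, hy, p, hp, hpy⟩ := h5' u (hC u hu)
  exact G.exchange hG h1 h2 h3 h4 h1' h2' h3' h4' (fun v hne p hp => (h5' v (hC v hne)).1 p hp)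
    hu hy hp hpy

theorem exists_crit {c : ℕ} (hc : 1 ≤ c) (hn : 8 * c ≤ 2 ^ b)
    {nm : Option (Nd b ((c + 1) * b) × K) → α} (hnm : Function.Injective nm)
    {P : NBP (α × α) α}
    (a : Nd b ((c + 1) * b) → K)
    (hS : SolvesGen P (nm none) ((flyDag b ((c + 1) * b) nm hnm).name a (some (root b c))))
    [Fintype P.Q] (hcard : Fintype.card P.Q < 2 ^ c) :
    ∃ d, Crit (flyDag b ((c + 1) * b) nm hnm) P c a d := by
  set G := flyDag b ((c + 1) * b) nm hnm with hGdef
  obtain ⟨l, q, hq, hl⟩ := (hS (G.inp a)).2 (gen_all a (root b c))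
  obtain ⟨l', hl', hnd⟩ := hl.nodup
  have hlen : l'.length ≤ Fintype.card P.Q := hnd.length_le_card
  set w := l'.filterMap (nodeOf G P a) with hw
  have hwl : w.length ≤ l'.length := List.length_filterMap_le _ _
  -- covering
  have hcov : ∀ y : Pos b, nd ((c + 1) * b) (c * b) y ∈ w := by
    intro y
    obtain ⟨B, hB1, hB2⟩ := needed (b := b) c y
    obtain ⟨p, hp, hpv⟩ := G.cover (a := a) hS hl' hq (nd ((c + 1) * b) (c * b) y) B hB1
      (fun x hx hne => hB2 x hx hne)
    rw [hw, List.mem_filterMap]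
    exact ⟨p, hp, (nodeOf_eq G P a).2 hpv⟩
  have hRle : c * b ≤ (c + 1) * b := by nlinarith
  have hlev : 2 * c ≤ lev w.toFinset (c * b) := by
    have : (univ : Finset (Pos b)).card ≤ lev w.toFinset (c * b) := by
      refine card_le_card_of_injOn (fun y => nd ((c + 1) * b) (c * b) y) ?_ ?_
      · intro y _
        refine mem_coe.2 (mem_filter.2 ⟨List.mem_toFinset.2 (hcov y), nd_val hRle y⟩)
      · intro y _ y' _ h
        exact (nd_inj hRle hRle h).2
    have hX : (univ : Finset (Pos b)).card = 2 ^ b := by simp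
    omega
  have hex : ∃ w₁ w₂ w₃, w = w₁ ++ w₂ ++ w₃ ∧ ∃ j < c, c ≤ (opn FChild w₂.toFinset j).card := by
    by_contra hno
    push Not at hno
    have := length_ge (fun q s x y hs h => child_mix hs h x y) hc hn c hRle w (fun w₁ w₂ w₃ h j hj => hno w₁ w₂ w₃ h j hj) hlev
    omega
  obtain ⟨w₁, w₂, w₃, hww, j, hj, hcj⟩ := hex
  rw [hw, List.filterMap_eq_append_iff] at hww
  obtain ⟨k, l₃, rfl, hk, hl₃⟩ := hww
  rw [List.filterMap_eq_append_iff] at hk
  obtain ⟨l₁, m, rfl, hl₁, hm⟩ := hk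
  obtain ⟨q₂, hq₂, h3⟩ := NBP.Comp.split _ hl'
  obtain ⟨q₁, h1, h2⟩ := NBP.Comp.split _ hq₂
  obtain ⟨C, hC, hCc⟩ := exists_subset_card_eq hcj
  have hmem : ∀ v, v ∈ w₂.toFinset ↔ ∃ p ∈ m, Asks G P a p v := by
    intro v
    rw [List.mem_toFinset, ← hm, List.mem_filterMap]
    simp only [nodeOf_eq]
  refine ⟨(q₁, q₂, C), l₁, m, l₃, q, h1, h2, h3, hq, hCc, ⟨j, hj, fun u hu => ?_⟩, fun u hu => ?_⟩
  · exact (mem_filter.1 (hC hu)).2.2.1
  · obtain ⟨_, h4, _, y, hy, huy⟩ := mem_filter.1 (hC hu)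
    refine ⟨fun p hp hpu => h4 ((hmem u).2 ⟨p, hp, hpu⟩), y, huy, ?_⟩
    exact (hmem y).1 hy

/-- The nodes of a band. -/
noncomputable def bandSet (b R j : ℕ) : Finset (Nd b R) :=
  univ.filter fun u => j * b ≤ (u.1 : ℕ) ∧ (u.1 : ℕ) < j * b + b

theorem bandSet_card (b R j : ℕ) : (bandSet b R j).card ≤ b * 2 ^ b := by
  have : (bandSet b R j).card ≤ (range b ×ˢ (univ : Finset (Pos b))).card := by
    refine card_le_card_of_injOn (fun u => ((u.1 : ℕ) - j * b, u.2)) ?_ ?_
    · intro u hu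
      have := (mem_filter.1 (mem_coe.1 hu)).2
      have h : (u.1 : ℕ) - j * b < b := by omega
      exact mem_coe.2 (mem_product.2 ⟨mem_range.2 h, mem_univ _⟩)
    · intro u hu v hv h
      have h1 := (mem_filter.1 (mem_coe.1 hu)).2
      have h2 := (mem_filter.1 (mem_coe.1 hv)).2
      simp only [Prod.mk.injEq] at h
      refine Prod.ext (Fin.ext (by omega)) h.2
  refine this.trans (le_of_eq ?_)
  rw [card_product, card_range]
  simp

end

/-- Names with prescribed values. -/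
theorem exists_names {E α : Type} [Fintype E] [Fintype α] (hE : Fintype.card E ≤ Fintype.card α)
    {e₁ e₂ : E} (he : e₁ ≠ e₂) {s t : α} (hst : s ≠ t) :
    ∃ f : E → α, Function.Injective f ∧ f e₁ = s ∧ f e₂ = t := by
  obtain ⟨f⟩ := Function.Embedding.nonempty_of_card_le hE
  set f₁ : E → α := fun x => Equiv.swap (f e₁) s (f x) with hf₁
  have i₁ : Function.Injective f₁ := (Equiv.injective _).comp f.injective
  have h₁ : f₁ e₁ = s := by simp [hf₁]
  have h₂ : f₁ e₂ ≠ s := fun h => he (i₁ (h₁.trans h.symm))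
  refine ⟨fun x => Equiv.swap (f₁ e₂) t (f₁ x), (Equiv.injective _).comp i₁, ?_, ?_⟩
  · show Equiv.swap (f₁ e₂) t (f₁ e₁) = s
    rw [h₁]
    exact Equiv.swap_apply_of_ne_of_ne h₂.symm hst
  · simp

/-- The lower bound. -/
theorem lower {α : Type} [Fintype α] {s t : α} (hst : s ≠ t) {c : ℕ} (hc : 1 ≤ c)
    (hα : 20000 * (c * (Nat.log 2 c + 4)) ^ 2 ≤ Fintype.card α) (P : NBP (α × α) α)
    (hS : SolvesGen P s t) (hG : Generative P s) : 2 ^ c ≤ P.size := by
  let _ := P.fin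
  show 2 ^ c ≤ Fintype.card P.Q
  by_contra hlt
  push Not at hlt
  -- the parameter `b`
  set b := Nat.clog 2 (8 * c) with hb
  have hn : 8 * c ≤ 2 ^ b := Nat.le_pow_clog (by norm_num) _
  have hb1 : 1 ≤ b := by
    rcases Nat.eq_zero_or_pos b with h | h
    · rw [h] at hn
      omega
    · exact h
  have hp : 2 ^ (b - 1) < 8 * c := Nat.pow_pred_clog_lt_self (by norm_num) (by omega)
  have hb2 : 2 ^ b ≤ 16 * c := by
    have : 2 ^ b = 2 * 2 ^ (b - 1) := by
      rw [← pow_succ']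
      congr 1
      omega
    omega
  have hb3 : b ≤ Nat.log 2 c + 4 := by
    have h1 : c < 2 ^ (Nat.log 2 c + 1) := Nat.lt_pow_succ_log_self (by norm_num) c
    have h2 : 2 ^ (b - 1) < 2 ^ (Nat.log 2 c + 4) := by
      calc 2 ^ (b - 1) < 8 * c := hp
        _ ≤ 8 * 2 ^ (Nat.log 2 c + 1) := by omega
        _ = 2 ^ (Nat.log 2 c + 4) := by rw [pow_succ, pow_add]; ring
    have := (Nat.pow_lt_pow_iff_right (by norm_num : 1 < 2)).1 h2
    omega
  -- the names
  have hcardE : Fintype.card (Option (Nd b ((c + 1) * b) × Fin (384 * b))) ≤ Fintype.card α := by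
    refine le_trans ?_ hα
    rw [Fintype.card_option, Fintype.card_prod, Fintype.card_prod, Fintype.card_fin,
      Fintype.card_fin]
    have hX : Fintype.card (Pos b) = 2 ^ b := by simp
    rw [hX]
    have h1 : (c + 1) * b + 1 ≤ 3 * (c * b) := by nlinarith
    have h2 : ((c + 1) * b + 1) * 2 ^ b * (384 * b) ≤ 3 * (c * b) * (16 * c) * (384 * b) :=
      Nat.mul_le_mul_right _ (Nat.mul_le_mul h1 hb2)
    have h3 : 3 * (c * b) * (16 * c) * (384 * b) = 18432 * (c * b) ^ 2 := by ring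
    have h4 : (c * b) ^ 2 ≤ (c * (Nat.log 2 c + 4)) ^ 2 :=
      Nat.pow_le_pow_left (Nat.mul_le_mul_left _ hb3) 2
    have h5 : 1 ≤ (c * (Nat.log 2 c + 4)) ^ 2 := by
      have : 1 ≤ c * (Nat.log 2 c + 4) := by nlinarith
      exact Nat.one_le_pow _ _ this
    omega
  have hRb : c * b + b = (c + 1) * b := by ring
  have : NeZero (384 * b) := ⟨by omega⟩
  obtain ⟨nm, hnm, hnm1, hnm2⟩ := exists_names hcardE
    (e₁ := none) (e₂ := some (root b c, (0 : Fin (384 * b)))) (by simp) hst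
  set G := flyDag b ((c + 1) * b) nm hnm with hGdef
  have hGs : G.nm none = s := hnm1
  have hname : ∀ a : Nd b ((c + 1) * b) → Fin (384 * b), a (root b c) = 0 →
      G.name a (some (root b c)) = t := by
    intro a ha
    show nm (some (root b c, a (root b c))) = t
    rw [ha, hnm2]
  have hcr : ∀ a : Nd b ((c + 1) * b) → Fin (384 * b), ∃ d, a (root b c) = 0 → Crit G P c a d := by
    intro a
    by_cases ha : a (root b c) = 0
    · obtain ⟨d, hd⟩ := exists_crit hc hn hnm (P := P) a (by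
        show SolvesGen P (G.nm none) (G.name a (some (root b c)))
        rw [hGs, hname a ha]
        exact hS) hlt
      exact ⟨d, fun _ => hd⟩
    · exact ⟨(P.start, P.start, ∅), fun h => absurd h ha⟩
  choose d hd using hcr
  set F : Finset (Finset (Nd b ((c + 1) * b))) :=
    (range c).biUnion fun j => powersetCard c (bandSet b ((c + 1) * b) j) with hF
  have hFC : ∀ C ∈ F, C.card = c ∧ root b c ∉ C := by
    intro C hC
    rw [hF, mem_biUnion] at hC
    obtain ⟨j, hj, hC⟩ := hC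
    rw [mem_powersetCard] at hC
    refine ⟨hC.2, fun hr => ?_⟩
    have h1 := (mem_filter.1 (hC.1 hr)).2.2
    have h2 : ((root b c).1 : ℕ) = (c + 1) * b := nd_val le_rfl _
    have h3 : (j + 1) * b ≤ c * b := Nat.mul_le_mul_right _ (mem_range.1 hj)
    have h4 : (j + 1) * b = j * b + b := by ring
    omega
  have hcount := count (root b c) (0 : Fin (384 * b)) c F hFC d
    (by
      intro a ha
      obtain ⟨_, _, _, _, _, _, _, _, hcc, ⟨j, hj, hjb⟩, _⟩ := hd a ha
      rw [hF, mem_biUnion]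
      exact ⟨j, mem_range.2 hj, mem_powersetCard.2 ⟨fun u hu =>
        mem_filter.2 ⟨mem_univ _, hjb u hu⟩, hcc⟩⟩)
    (by
      intro a a' ha ha' hdd hv
      exact crit_inj (G := G) (by rw [hGs]; exact hG) (hd a ha) (hdd ▸ hd a' ha') hv)
  -- numbers
  rw [Fintype.card_fin] at hcount
  have hFcard : F.card ≤ 2 ^ c * (48 * b) ^ c := by
    have h1 : F.card ≤ c * (b * 2 ^ b).choose c := by
      rw [hF]
      refine card_biUnion_le.trans ?_
      refine (sum_le_sum fun j _ => ?_ : _ ≤ ∑ _j ∈ range c, (b * 2 ^ b).choose c).trans ?_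
      · rw [card_powersetCard]
        exact Nat.choose_le_choose _ (bandSet_card _ _ _)
      · rw [sum_const, card_range, smul_eq_mul]
    have h2 : (b * 2 ^ b).choose c ≤ (3 * (16 * b)) ^ c := by
      refine choose_le _ _ _ ?_
      calc b * 2 ^ b ≤ b * (16 * c) := Nat.mul_le_mul_left _ hb2
        _ = 16 * b * c := by ring
    have e : 3 * (16 * b) = 48 * b := by ring
    rw [e] at h2
    exact h1.trans (Nat.mul_le_mul (Nat.lt_two_pow_self).le h2)
  have h4 : Fintype.card P.Q ^ 2 < 4 ^ c := by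
    calc Fintype.card P.Q ^ 2 < (2 ^ c) ^ 2 := Nat.pow_lt_pow_left hlt (by norm_num)
      _ = 4 ^ c := by rw [← pow_mul, mul_comm, pow_mul]; norm_num
  have h5 : (384 * b) ^ c = 4 ^ c * (2 ^ c * (48 * b) ^ c) := by
    rw [← mul_pow, ← mul_pow]
    congr 1
    ring
  rw [h5] at hcount
  have hpos : 0 < 2 ^ c * (48 * b) ^ c := by positivity
  have h6 : Fintype.card P.Q ^ 2 * F.card ≤ Fintype.card P.Q ^ 2 * (2 ^ c * (48 * b) ^ c) :=
    Nat.mul_le_mul_left _ hFcard
  have h7 : Fintype.card P.Q ^ 2 * (2 ^ c * (48 * b) ^ c) < 4 ^ c * (2 ^ c * (48 * b) ^ c) :=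
    Nat.mul_lt_mul_of_pos_right h4 hpos
  omega

end Pool.Agent.Lib.BP
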