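import Pool.Agent.Lib.BP.EInp
import Pool.Agent.Lib.BP.Gens
import Pool.Agent.Lib.BP.Main

/-!
# The lower bound for nondeterministic thrifty programs
-/

namespace Pool.Agent.Lib.BP

open Classical Finset

section

variable {V K : Type} (ch : V → Option (V × V)) (P : NBP (Addr V K) K) (a : V → K)

/-- The node whose true entry is asked in the state `p`. -/
noncomputable def enodeOf (p : P.Q) : Option V :=
  if h : ∃ v, P.query p = some (entry ch a v) then some h.choose else none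

theorem enodeOf_eq {p : P.Q} {v : V} :
    enodeOf ch P a p = some v ↔ P.query p = some (entry ch a v) := by
  have huniq : ∀ w, P.query p = some (entry ch a w) → P.query p = some (entry ch a v) → w = v := by
    intro w hw hv
    have h := hw.symm.trans hv
    simp only [Option.some.injEq] at h
    exact entry_inj h
  constructor
  · intro h
    by_cases h' : ∃ v, P.query p = some (entry ch a v)
    · rw [enodeOf, dif_pos h'] at h
      simp only [Option.some.injEq] at h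
      exact h ▸ h'.choose_spec
    · rw [enodeOf, dif_neg h'] at h
      simp at h
  · intro h
    have h' : ∃ v, P.query p = some (entry ch a v) := ⟨v, h⟩
    rw [enodeOf, dif_pos h', huniq _ h'.choose_spec h]

end

section

variable {K : Type} {b R : ℕ}

/-- The butterfly: the children, with leaves on level `0`. -/
def ech (b R : ℕ) (v : Nd b R) : Option (Nd b R × Nd b R) :=
  if (v.1 : ℕ) = 0 then none
  else some (nd R ((v.1 : ℕ) - 1) v.2, nd R ((v.1 : ℕ) - 1) (flip v.2 (((v.1 : ℕ) - 1) % b)))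

theorem ech_succ {i : ℕ} (h : i + 1 ≤ R) (x : Pos b) :
    ech b R (nd R (i + 1) x) = some (nd R i x, nd R i (flip x (i % b))) := by
  have h1 : ((nd R (i + 1) x).1 : ℕ) = i + 1 := nd_val h x
  rw [ech, if_neg (by omega), h1]
  rfl

theorem child_rank {u v : Nd b R} (h : IsChild (ech b R) u v) : (u.1 : ℕ) < (v.1 : ℕ) := by
  obtain ⟨w, hw⟩ := h
  have hv := v.1.2
  by_cases h0 : (v.1 : ℕ) = 0
  · rw [ech, if_pos h0] at hw
    simp at hw
  · rw [ech, if_neg h0] at hw
    simp only [Option.some.injEq, Prod.mk.injEq] at hw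
    rcases hw with ⟨h1, _⟩ | ⟨_, h1⟩
    · rw [← h1, nd_val (by omega)]
      omega
    · rw [← h1, nd_val (by omega)]
      omega

theorem ech_fly : IsFly (IsChild (ech b R)) := by
  intro q s x y hs h
  have hm : (q * b + s) % b = s := by
    rw [Nat.add_comm, Nat.add_mul_mod_self_right]
    exact Nat.mod_eq_of_lt hs
  unfold IsChild
  rw [ech_succ h, hm]
  rcases mix_step s x y with h1 | h1
  · refine ⟨nd R (q * b + s) (flip (mix (s + 1) x y) s), .inl ?_⟩
    rw [h1]
  · refine ⟨nd R (q * b + s) (mix (s + 1) x y), .inr ?_⟩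
    rw [h1]

/-- The nodes of level `r * b` are necessary for the root. -/
theorem eneeded (r : ℕ) (y : Pos b) : ∃ B : Set (Nd b ((r + 1) * b)), root b r ∈ B ∧
    ∀ x ∈ B, x ≠ nd ((r + 1) * b) (r * b) y → ∃ u ∈ B, IsChild (ech b ((r + 1) * b)) u x := by
  have hR : (r + 1) * b = r * b + b := by ring
  refine ⟨{v | ∃ s ≤ b, v = nd ((r + 1) * b) (r * b + s) (mix s (fun _ => false) y)}, ?_, ?_⟩
  · refine ⟨b, le_rfl, ?_⟩
    rw [mix_top, ← hR]
    rfl
  · rintro x ⟨s, hs, rfl⟩ hne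
    cases s with
    | zero =>
      exact absurd (by rw [mix_zero]; rfl) hne
    | succ s =>
      exact ⟨_, ⟨s, by omega, rfl⟩, ech_fly _ _ _ _ (by omega) (by omega)⟩

/-- The data for a labelling: two states and a set of open nodes. -/
def ECrit (z : K) (P : NBP (Addr (Nd b R) K) K) (c r : ℕ) (a : Nd b R → K)
    (d : P.Q × P.Q × Finset (Nd b R)) : Prop :=
  ∃ l₁ m l₃ q₃, P.Comp (einp (ech b R) z a) P.start l₁ d.1 ∧
    P.Comp (einp (ech b R) z a) d.1 m d.2.1 ∧
    P.Comp (einp (ech b R) z a) d.2.1 l₃ q₃ ∧ q₃ ∈ P.acc ∧ d.2.2.card = c ∧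
    (∃ j < r, ∀ u ∈ d.2.2, j * b ≤ (u.1 : ℕ) ∧ (u.1 : ℕ) < j * b + b) ∧
    ∀ u ∈ d.2.2, (∀ p ∈ m, P.query p ≠ some (entry (ech b R) a u)) ∧
      ∃ y, IsChild (ech b R) u y ∧ ∃ p ∈ m, P.query p = some (entry (ech b R) a y)

theorem ecrit_inj {z : K} {P : NBP (Addr (Nd b R) K) K} (hP : Thrifty (ech b R) P) {c r : ℕ}
    {a a' : Nd b R → K} (haz : ∀ v, a' v ≠ z) {d : P.Q × P.Q × Finset (Nd b R)}
    (h : ECrit z P c r a d) (h' : ECrit z P c r a' d) (hv : ∀ v, v ∉ d.2.2 → a v = a' v) :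
    a = a' := by
  by_contra hne
  obtain ⟨u, hu⟩ := Function.ne_iff.1 hne
  obtain ⟨l₁, m, l₃, q₃, h1, h2, h3, h4, _⟩ := h
  obtain ⟨n₁, m', n₃, q₄, h1', h2', h3', h4', _, _, h5'⟩ := h'
  have hC : ∀ v, a v ≠ a' v → v ∈ d.2.2 := fun v hne => by
    by_contra hn
    exact hne (hv v hn)
  obtain ⟨_, y, hy, p, hp, hpy⟩ := h5' u (hC u hu)
  exact eexchange hP haz h1 h2 h3 h4 h1' h2' h3' h4'
    (fun v hne p hp => (h5' v (hC v hne)).1 p hp) hu hy hp hpy

theorem exists_ecrit {z : K} {c r : ℕ} (hc : 1 ≤ c) (hn : 8 * c ≤ 2 ^ b)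
    {P : NBP (Addr (Nd b ((r + 1) * b)) K) K} (a : Nd b ((r + 1) * b) → K) (haz : ∀ v, a v ≠ z)
    (hS : SolvesEval (ech b ((r + 1) * b)) (root b r) (a (root b r)) P)
    [Fintype P.Q] (hcard : Fintype.card P.Q < 2 ^ r) : ∃ d, ECrit z P c r a d := by
  set ch := ech b ((r + 1) * b) with hch
  obtain ⟨l, q, hq, hl⟩ := (hS (einp ch z a)).2
    (val_self (rank := fun v => (v.1 : ℕ)) (fun u v h => child_rank h) (root b r))
  obtain ⟨l', hl', hnd⟩ := hl.nodup
  have hlen : l'.length ≤ Fintype.card P.Q := hnd.length_le_card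
  set w := l'.filterMap (enodeOf ch P a) with hw
  have hwl : w.length ≤ l'.length := List.length_filterMap_le _ _
  -- covering
  have hcov : ∀ y : Pos b, nd ((r + 1) * b) (r * b) y ∈ w := by
    intro y
    obtain ⟨B, hB1, hB2⟩ := eneeded (b := b) r y
    obtain ⟨p, hp, hpv⟩ := ecover haz hS hl' hq (nd ((r + 1) * b) (r * b) y) B hB1
      (fun x hx hne => hB2 x hx hne)
    rw [hw, List.mem_filterMap]
    exact ⟨p, hp, (enodeOf_eq ch P a).2 hpv⟩
  have hRle : r * b ≤ (r + 1) * b := by nlinarith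
  have hlev : 2 * c ≤ lev w.toFinset (r * b) := by
    have : (univ : Finset (Pos b)).card ≤ lev w.toFinset (r * b) := by
      refine card_le_card_of_injOn (fun y => nd ((r + 1) * b) (r * b) y) ?_ ?_
      · intro y _
        refine mem_coe.2 (mem_filter.2 ⟨List.mem_toFinset.2 (hcov y), nd_val hRle y⟩)
      · intro y _ y' _ h
        exact (nd_inj hRle hRle h).2
    have hX : (univ : Finset (Pos b)).card = 2 ^ b := by simp
    omega
  have hex : ∃ w₁ w₂ w₃, w = w₁ ++ w₂ ++ w₃ ∧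
      ∃ j < r, c ≤ (opn (IsChild ch) w₂.toFinset j).card := by
    by_contra hno
    push Not at hno
    have := length_ge ech_fly hc hn r hRle w (fun w₁ w₂ w₃ h j hj => hno w₁ w₂ w₃ h j hj) hlev
    omega
  obtain ⟨w₁, w₂, w₃, hww, j, hj, hcj⟩ := hex
  rw [hw, List.filterMap_eq_append_iff] at hww
  obtain ⟨k, l₃, rfl, hk, hl₃⟩ := hww
  rw [List.filterMap_eq_append_iff] at hk
  obtain ⟨l₁, m, rfl, hl₁, hm⟩ := hk
  obtain ⟨q₂, hq₂, h3⟩ := NBP.Comp.split _ hl'
  obtain ⟨q₁, h1, h2⟩ := NBP.Comp.split _ hq₂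
  obtain ⟨C, hC, hCc⟩ := exists_subset_card_eq hcj
  have hmem : ∀ v, v ∈ w₂.toFinset ↔ ∃ p ∈ m, P.query p = some (entry ch a v) := by
    intro v
    rw [List.mem_toFinset, ← hm, List.mem_filterMap]
    simp only [enodeOf_eq]
  refine ⟨(q₁, q₂, C), l₁, m, l₃, q, h1, h2, h3, hq, hCc, ⟨j, hj, fun u hu => ?_⟩, fun u hu => ?_⟩
  · exact (mem_filter.1 (hC hu)).2.2.1
  · obtain ⟨_, h4, _, y, hy, huy⟩ := mem_filter.1 (hC hu)
    refine ⟨fun p hp hpu => h4 ((hmem u).2 ⟨p, hp, hpu⟩), y, huy, ?_⟩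
    exact (hmem y).1 hy

end

/-- The labels different from `z`. -/
abbrev NZ (K : Type) (z : K) : Type := {x : K // x ≠ z}

theorem card_NZ (K : Type) [Fintype K] (z : K) : Fintype.card (NZ K z) = Fintype.card K - 1 := by
  have := Fintype.card_subtype_compl (fun x : K => x = z)
  rw [Fintype.card_subtype_eq] at this
  exact this

/-- The lower bound for thrifty programs. -/
theorem elower (c e : ℕ) (hc : 1 ≤ c) (he : 1 ≤ e) :
    ∃ (V : Type) (_ : Fintype V) (ch : V → Option (V × V)) (r : V), Acyclic ch ∧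
      Fintype.card V ≤ 48 * e * c ^ 2 * (Nat.log 2 c + 4) ∧
      ∀ (K : Type) [Fintype K] (one : K), 48 * 8 ^ e * (Nat.log 2 c + 4) + 1 ≤ Fintype.card K →
        ∀ P : NBP (Addr V K) K, SolvesEval ch r one P → Thrifty ch P → 2 ^ (e * c) ≤ P.size := by
  -- the parameter `b`
  set b := Nat.clog 2 (8 * c) with hb
  have hn : 8 * c ≤ 2 ^ b := Nat.le_pow_clog (by norm_num) _
  have hb1 : 1 ≤ b := by
    rcases Nat.eq_zero_or_pos b with h | h
    · rw [h] at hn
      omega
    · exact h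
  have hp : 2 ^ (b - 1) < 8 * c := Nat.pow_pred_clog_lt_self (by norm_num) (by omega)
  have hb2 : 2 ^ b ≤ 16 * c := by
    have : 2 ^ b = 2 * 2 ^ (b - 1) := by
      rw [← pow_succ']
      congr 1
      omega
    omega
  have hb3 : b ≤ Nat.log 2 c + 4 := by
    have h1 : c < 2 ^ (Nat.log 2 c + 1) := Nat.lt_pow_succ_log_self (by norm_num) c
    have h2 : 2 ^ (b - 1) < 2 ^ (Nat.log 2 c + 4) := by
      calc 2 ^ (b - 1) < 8 * c := hp
        _ ≤ 8 * 2 ^ (Nat.log 2 c + 1) := by omega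
        _ = 2 ^ (Nat.log 2 c + 4) := by rw [pow_succ, pow_add]; ring
    have := (Nat.pow_lt_pow_iff_right (by norm_num : 1 < 2)).1 h2
    omega
  set r := e * c with hr
  have hr1 : 1 ≤ r := Nat.one_le_iff_ne_zero.2 (by positivity)
  refine ⟨Nd b ((r + 1) * b), inferInstance, ech b ((r + 1) * b), root b r,
    ⟨fun v => (v.1 : ℕ), fun u v h => child_rank h⟩, ?_, ?_⟩
  · rw [Fintype.card_prod, Fintype.card_fin]
    have hX : Fintype.card (Pos b) = 2 ^ b := by simp
    rw [hX]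
    have h1 : (r + 1) * b + 1 ≤ 3 * (r * b) := by nlinarith
    calc ((r + 1) * b + 1) * 2 ^ b ≤ 3 * (r * b) * (16 * c) := Nat.mul_le_mul h1 hb2
      _ = 48 * e * c ^ 2 * b := by rw [hr]; ring
      _ ≤ 48 * e * c ^ 2 * (Nat.log 2 c + 4) := Nat.mul_le_mul_left _ hb3
  intro K _ one hK P hS hP
  let _ := P.fin
  show 2 ^ r ≤ Fintype.card P.Q
  by_contra hlt
  push Not at hlt
  have hK' : 48 * 8 ^ e * b + 1 ≤ Fintype.card K :=
    (Nat.add_le_add_right (Nat.mul_le_mul_left _ hb3) 1).trans hK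
  have hpos8 : 0 < 48 * 8 ^ e * b := by positivity
  obtain ⟨z, hz⟩ : ∃ z : K, z ≠ one := by
    have : 1 < Fintype.card K := by omega
    exact Fintype.exists_ne_of_one_lt_card this one
  -- labels
  have hcardK' : 48 * 8 ^ e * b ≤ Fintype.card (NZ K z) := by
    have h1 := card_NZ K z
    omega
  have hcr : ∀ a : Nd b ((r + 1) * b) → NZ K z, ∃ d, a (root b r) = ⟨one, hz.symm⟩ →
      ECrit z P c r (fun v => (a v : K)) d := by
    intro a
    by_cases ha : a (root b r) = ⟨one, hz.symm⟩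
    · obtain ⟨d, hd⟩ := exists_ecrit (P := P) hc hn (fun v => (a v : K)) (fun v => (a v).2) (by
        show SolvesEval _ _ (a (root b r) : K) P
        rw [ha]
        exact hS) hlt
      exact ⟨d, fun _ => hd⟩
    · exact ⟨(P.start, P.start, ∅), fun h => absurd h ha⟩
  choose d hd using hcr
  set F : Finset (Finset (Nd b ((r + 1) * b))) :=
    (range r).biUnion fun j => powersetCard c (bandSet b ((r + 1) * b) j) with hF
  have hRb : r * b + b = (r + 1) * b := by ring
  have hFC : ∀ C ∈ F, C.card = c ∧ root b r ∉ C := by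
    intro C hC
    rw [hF, mem_biUnion] at hC
    obtain ⟨j, hj, hC⟩ := hC
    rw [mem_powersetCard] at hC
    refine ⟨hC.2, fun hr' => ?_⟩
    have h1 := (mem_filter.1 (hC.1 hr')).2.2
    have h2 : ((root b r).1 : ℕ) = (r + 1) * b := nd_val le_rfl _
    have h3 : (j + 1) * b ≤ r * b := Nat.mul_le_mul_right _ (mem_range.1 hj)
    have h4 : (j + 1) * b = j * b + b := by ring
    omega
  have hcount : Fintype.card (NZ K z) ^ c ≤ Fintype.card P.Q ^ 2 * F.card := count (root b r) (⟨one, hz.symm⟩ : NZ K z) c F hFC d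
    (by
      intro a ha
      obtain ⟨_, _, _, _, _, _, _, _, hcc, ⟨j, hj, hjb⟩, _⟩ := hd a ha
      rw [hF, mem_biUnion]
      exact ⟨j, mem_range.2 hj, mem_powersetCard.2 ⟨fun u hu =>
        mem_filter.2 ⟨mem_univ _, hjb u hu⟩, hcc⟩⟩)
    (by
      intro a a' ha ha' hdd hv
      have := ecrit_inj hP (fun v => (a' v).2) (hd a ha) (hdd ▸ hd a' ha')
        (fun v hv' => congrArg Subtype.val (hv v hv'))
      funext v
      exact Subtype.ext (congrFun this v))
  -- numbers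
  have hFcard : F.card ≤ 2 ^ r * (48 * b) ^ c := by
    have h1 : F.card ≤ r * (b * 2 ^ b).choose c := by
      rw [hF]
      refine card_biUnion_le.trans ?_
      refine (sum_le_sum fun j _ => ?_ : _ ≤ ∑ _j ∈ range r, (b * 2 ^ b).choose c).trans ?_
      · rw [card_powersetCard]
        exact Nat.choose_le_choose _ (bandSet_card _ _ _)
      · rw [sum_const, card_range, smul_eq_mul]
    have h2 : (b * 2 ^ b).choose c ≤ (3 * (16 * b)) ^ c := by
      refine choose_le _ _ _ ?_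
      calc b * 2 ^ b ≤ b * (16 * c) := Nat.mul_le_mul_left _ hb2
        _ = 16 * b * c := by ring
    have e : 3 * (16 * b) = 48 * b := by ring
    rw [e] at h2
    exact h1.trans (Nat.mul_le_mul (Nat.lt_two_pow_self).le h2)
  have h4 : Fintype.card P.Q ^ 2 < 4 ^ r := by
    calc Fintype.card P.Q ^ 2 < (2 ^ r) ^ 2 := Nat.pow_lt_pow_left hlt (by norm_num)
      _ = 4 ^ r := by rw [← pow_mul, mul_comm, pow_mul]; norm_num
  have h5 : (48 * 8 ^ e * b) ^ c = 4 ^ r * (2 ^ r * (48 * b) ^ c) := by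
    have e1 : 48 * 8 ^ e * b = 8 ^ e * (48 * b) := by ring
    rw [e1, mul_pow, ← pow_mul, ← hr, ← mul_assoc, ← mul_pow]
    norm_num
  have h5' : (48 * 8 ^ e * b) ^ c ≤ Fintype.card (NZ K z) ^ c := Nat.pow_le_pow_left hcardK' c
  rw [h5] at h5'
  have hpos : 0 < 2 ^ r * (48 * b) ^ c := by positivity
  have h6 : Fintype.card P.Q ^ 2 * F.card ≤ Fintype.card P.Q ^ 2 * (2 ^ r * (48 * b) ^ c) :=
    Nat.mul_le_mul_left _ hFcard
  have h7 : Fintype.card P.Q ^ 2 * (2 ^ r * (48 * b) ^ c) < 4 ^ r * (2 ^ r * (48 * b) ^ c) :=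
    Nat.mul_lt_mul_of_pos_right h4 hpos
  omega

end Pool.Agent.Lib.BP
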