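import Pool.Agent.Lib.BP.Defs

/-!
# The DAG evaluation problem and thrifty programs

`ch : V → Option (V × V)` gives the two children of a node, or `none` if the node is a leaf. The
input gives to every leaf `v` a value in `K` (address `(v, none)`) and to every other node `v` a
function `K × K → K` (addresses `(v, some (x, y))`).
-/

namespace Pool.Agent.Lib.BP

variable {V K : Type}

/-- The addresses of the input of the DAG evaluation problem. -/
abbrev Addr (V K : Type) : Type := V × Option (K × K)

/-- `Val ch f v x`: on the input `f` the node `v` has the value `x`. -/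
inductive Val (ch : V → Option (V × V)) (f : Addr V K → K) : V → K → Prop
  | leaf (v : V) : ch v = none → Val ch f v (f (v, none))
  | node (v u w : V) (x y : K) : ch v = some (u, w) → Val ch f u x → Val ch f w y →
      Val ch f v (f (v, some (x, y)))

/-- `P` decides whether the value of the node `r` is `one`. -/
def SolvesEval (ch : V → Option (V × V)) (r : V) (one : K) (P : NBP (Addr V K) K) : Prop :=
  ∀ f : Addr V K → K, P.Accepts f ↔ Val ch f r one

/-- `P` is thrifty: for every input, in every accepting computation, the value of the function of a
node `v` is asked only at the pair of the values of the children of `v`. -/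
def Thrifty (ch : V → Option (V × V)) (P : NBP (Addr V K) K) : Prop :=
  ∀ (f : Addr V K → K) (l : List P.Q), ∀ q ∈ P.acc, P.Comp f P.start l q →
    ∀ p ∈ l, ∀ (v : V) (x y : K), P.query p = some (v, some (x, y)) →
      ∃ u w, ch v = some (u, w) ∧ Val ch f u x ∧ Val ch f w y

/-- `u` is a child of `v`. -/
def IsChild (ch : V → Option (V × V)) (u v : V) : Prop :=
  ∃ w, ch v = some (u, w) ∨ ch v = some (w, u)

/-- `ch` has no cycles. -/
def Acyclic (ch : V → Option (V × V)) : Prop :=
  ∃ rank : V → ℕ, ∀ u v, IsChild ch u v → rank u < rank v

end Pool.Agent.Lib.BP
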