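import Pool.Agent.Lib.BP.Inp

/-!
# The butterfly DAG

The nodes are the pairs of a level `0, …, R` and a position, a function `Fin b → Bool`. The children
of a node of level `i + 1` and position `x` are the nodes of level `i` with the positions `x` and
`x` with coordinate `i % b` flipped. The nodes of level `0` form a chain which starts with the start
element.
-/

namespace Pool.Agent.Lib.BP

/-- Positions. -/
abbrev Pos (b : ℕ) : Type := Fin b → Bool

/-- Nodes. -/
abbrev Nd (b R : ℕ) : Type := Fin (R + 1) × Pos b

variable {b R : ℕ}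

/-- The node of level `i` (for `i ≤ R`) and position `x`. -/
def nd (R i : ℕ) (x : Pos b) : Nd b R := (Fin.ofNat (R + 1) i, x)

theorem nd_val {i : ℕ} (h : i ≤ R) (x : Pos b) : ((nd R i x).1 : ℕ) = i := by
  show i % (R + 1) = i
  exact Nat.mod_eq_of_lt (by omega)

theorem nd_inj {i j : ℕ} (hi : i ≤ R) (hj : j ≤ R) {x y : Pos b} (h : nd R i x = nd R j y) :
    i = j ∧ x = y := by
  refine ⟨?_, congrArg Prod.snd h⟩
  have := congrArg (fun v : Nd b R => (v.1 : ℕ)) h
  simpa [nd_val hi, nd_val hj] using this

theorem eq_nd (v : Nd b R) : v = nd R v.1 v.2 := by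
  refine Prod.ext ?_ rfl
  apply Fin.ext
  show (v.1 : ℕ) = (v.1 : ℕ) % (R + 1)
  exact (Nat.mod_eq_of_lt v.1.2).symm

/-- Flip the coordinate `t`. -/
def flip (x : Pos b) (t : ℕ) : Pos b := fun j => if (j : ℕ) = t then !(x j) else x j

/-- An enumeration of the positions. -/
noncomputable def enum (b : ℕ) : Pos b ≃ Fin (2 ^ b) :=
  Fintype.equivFinOfCardEq (by simp)

/-- The predecessor in the chain of level `0`. -/
noncomputable def pred (R : ℕ) (x : Pos b) : Option (Nd b R) :=
  if (enum b x : ℕ) = 0 then none
  else some (nd R 0 ((enum b).symm ⟨(enum b x : ℕ) - 1, by have := (enum b x).2; omega⟩))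

/-- The children. -/
noncomputable def fch (b R : ℕ) (v : Nd b R) : Option (Nd b R) × Option (Nd b R) :=
  if (v.1 : ℕ) = 0 then (none, pred R v.2)
  else (some (nd R ((v.1 : ℕ) - 1) v.2), some (nd R ((v.1 : ℕ) - 1) (flip v.2 (((v.1 : ℕ) - 1) % b))))

theorem fch_succ {i : ℕ} (h : i + 1 ≤ R) (x : Pos b) :
    fch b R (nd R (i + 1) x) = (some (nd R i x), some (nd R i (flip x (i % b)))) := by
  have h1 : ((nd R (i + 1) x).1 : ℕ) = i + 1 := nd_val h x
  rw [fch, if_neg (by omega), h1]
  rfl

theorem fch_zero (x : Pos b) : fch b R (nd R 0 x) = (none, pred R x) := by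
  have h1 : ((nd R 0 x).1 : ℕ) = 0 := nd_val (Nat.zero_le R) x
  rw [fch, if_pos h1]
  rfl

theorem pred_inj {x y : Pos b} (h : pred R x = pred R y) : x = y := by
  have key : (enum b x : ℕ) = enum b y := by
    by_cases hx : (enum b x : ℕ) = 0
    · by_cases hy : (enum b y : ℕ) = 0
      · rw [hx, hy]
      · rw [pred, pred, if_pos hx, if_neg hy] at h
        simp at h
    · by_cases hy : (enum b y : ℕ) = 0
      · rw [pred, pred, if_neg hx, if_pos hy] at h
        simp at h
      · rw [pred, pred, if_neg hx, if_neg hy] at h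
        simp only [Option.some.injEq] at h
        have := (nd_inj (Nat.zero_le R) (Nat.zero_le R) h).2
        have := congrArg (fun z => ((enum b z : Fin (2 ^ b)) : ℕ)) this
        simp only [Equiv.apply_symm_apply] at this
        omega
  exact (enum b).injective (Fin.ext key)

theorem fch_injective : Function.Injective (fch b R) := by
  intro v w h
  obtain ⟨⟨i, hi⟩, x⟩ := v
  obtain ⟨⟨j, hj⟩, y⟩ := w
  have e1 : ((⟨i, hi⟩, x) : Nd b R) = nd R i x := eq_nd _
  have e2 : ((⟨j, hj⟩, y) : Nd b R) = nd R j y := eq_nd _
  rw [e1, e2] at h ⊢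
  cases i with
  | zero =>
    cases j with
    | zero =>
      rw [fch_zero, fch_zero] at h
      rw [pred_inj (congrArg Prod.snd h)]
    | succ j =>
      rw [fch_zero, fch_succ (by omega)] at h
      simp at h
  | succ i =>
    cases j with
    | zero =>
      rw [fch_zero, fch_succ (by omega)] at h
      simp at h
    | succ j =>
      rw [fch_succ (by omega), fch_succ (by omega)] at h
      have := congrArg Prod.fst h
      simp only [Option.some.injEq] at this
      obtain ⟨rfl, rfl⟩ := nd_inj (by omega) (by omega) this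
      rfl

/-- The coordinates below `s` from `x`, the others from `y`. -/
def mix (s : ℕ) (x y : Pos b) : Pos b := fun j => if (j : ℕ) < s then x j else y j

theorem mix_zero (x y : Pos b) : mix 0 x y = y := by
  funext j
  simp [mix]

theorem mix_top (x y : Pos b) : mix b x y = x := by
  funext j
  simp [mix]

theorem mix_step (s : ℕ) (x y : Pos b) :
    mix s x y = mix (s + 1) x y ∨ mix s x y = flip (mix (s + 1) x y) s := by
  by_cases hs : s < b
  · by_cases h : x ⟨s, hs⟩ = y ⟨s, hs⟩
    · left
      funext j
      by_cases hj : (j : ℕ) = s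
      · have : j = ⟨s, hs⟩ := Fin.ext hj
        subst this
        simp [mix, h]
      · simp only [mix]
        by_cases h1 : (j : ℕ) < s
        · rw [if_pos h1, if_pos (by omega)]
        · rw [if_neg h1, if_neg (by omega)]
    · right
      funext j
      by_cases hj : (j : ℕ) = s
      · have : j = ⟨s, hs⟩ := Fin.ext hj
        subst this
        simp only [mix, flip, lt_self_iff_false, if_false, if_true, Nat.lt_succ_self]
        revert h
        cases x ⟨s, hs⟩ <;> cases y ⟨s, hs⟩ <;> simp
      · simp only [mix, flip, if_neg hj]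
        by_cases h1 : (j : ℕ) < s
        · rw [if_pos h1, if_pos (by omega)]
        · rw [if_neg h1, if_neg (by omega)]
  · left
    funext j
    have := j.2
    simp only [mix]
    rw [if_pos (by omega), if_pos (by omega)]

/-- `u` is a child of `v`. -/
def FChild (u v : Nd b R) : Prop := (fch b R v).1 = some u ∨ (fch b R v).2 = some u

theorem child_mix {q s : ℕ} (hs : s < b) (h : q * b + s + 1 ≤ R) (x y : Pos b) :
    FChild (nd R (q * b + s) (mix s x y)) (nd R (q * b + s + 1) (mix (s + 1) x y)) := by
  have hm : (q * b + s) % b = s := by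
    rw [Nat.add_comm, Nat.add_mul_mod_self_right]
    exact Nat.mod_eq_of_lt hs
  unfold FChild
  rw [fch_succ h, hm]
  rcases mix_step s x y with h1 | h1
  · left
    rw [h1]
  · right
    rw [h1]

end Pool.Agent.Lib.BP
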