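import Pool.Agent.Lib.BP.Defs

/-!
# The generation problem and generative programs

The generation problem (Jones and Laaser): the input is a binary operation `g` on a finite set `X`;
is the element `t` in the closure of the element `s` under `g`? An input is written as a function
`X × X → X`.
-/

namespace Pool.Agent.Lib.BP

/-- `Gen g s x`: the element `x` is in the closure of `s` under the operation `g`. -/
inductive Gen {X : Type} (g : X × X → X) (s : X) : X → Prop
  | base : Gen g s s
  | mul (i j : X) : Gen g s i → Gen g s j → Gen g s (g (i, j))

/-- `P` solves the generation problem with start element `s` and target `t`. -/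
def SolvesGen {X : Type} (P : NBP (X × X) X) (s t : X) : Prop :=
  ∀ g : X × X → X, P.Accepts g ↔ Gen g s t

/-- `P` is sound: it accepts only inputs for which `t` is in the closure of `s`. -/
def Sound {X : Type} (P : NBP (X × X) X) (s t : X) : Prop :=
  ∀ g : X × X → X, P.Accepts g → Gen g s t

/-- `P` is generative: for every input `g`, in every accepting computation on `g`, the value
`g (i, j)` is asked only if `i` and `j` are in the closure of `s` under `g`. -/
def Generative {X : Type} (P : NBP (X × X) X) (s : X) : Prop :=
  ∀ (g : X × X → X) (l : List P.Q), ∀ q ∈ P.acc, P.Comp g P.start l q →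
    ∀ p ∈ l, ∀ i j : X, P.query p = some (i, j) → Gen g s i ∧ Gen g s j

/-- `P` is generative up to `r` exceptions: for every input `g` and every accepting computation on
`g`, all elements which occur in the asked pairs, except for at most `r` elements, are in the
closure of `s` under `g`. -/
def AlmostGen {X : Type} (P : NBP (X × X) X) (s : X) (r : ℕ) : Prop :=
  ∀ (g : X × X → X) (l : List P.Q), ∀ q ∈ P.acc, P.Comp g P.start l q →
    ∃ E : Finset X, E.card ≤ r ∧ ∀ p ∈ l, ∀ i j : X, P.query p = some (i, j) →
      (Gen g s i ∨ i ∈ E) ∧ (Gen g s j ∨ j ∈ E)

end Pool.Agent.Lib.BP
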