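import Pool.Agent.Lib.BP.Gen

/-!
# Inputs given by labelled DAGs, the exchange lemma and the covering lemma

`V` is the set of nodes of a DAG, `ch v` the pair of the two children of `v` (`none` stands for the
start element), `a : V → K` a labelling. The element `nm (some (v, a v))` is the name of `v`.
-/

namespace Pool.Agent.Lib.BP

open Classical

variable {α V K : Type}

/-- Data: the children of the nodes of the DAG, and names in `α`. -/
structure Dag (α V K : Type) : Type where
  ch : V → Option V × Option V
  inj : Function.Injective ch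
  nm : Option (V × K) → α
  nmInj : Function.Injective nm

namespace Dag

variable (G : Dag α V K) {a b : V → K}

/-- The name of `o` with the labelling `a`. -/
def name (a : V → K) (o : Option V) : α := G.nm (o.map fun v => (v, a v))

/-- The input for the labelling `a`. -/
noncomputable def inp (a : V → K) (e : α × α) : α :=
  if h : ∃ v, G.name a (G.ch v).1 = e.1 ∧ G.name a (G.ch v).2 = e.2 then G.name a (some h.choose)
  else G.name a none

/-- `u` is a child of `v`. -/
def Child (u v : V) : Prop := (G.ch v).1 = some u ∨ (G.ch v).2 = some u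

theorem name_eq {o o' : Option V} (h : G.name a o = G.name b o') :
    o = o' ∧ ∀ u, o = some u → a u = b u := by
  have h' := G.nmInj h
  cases o with
  | none =>
    cases o' with
    | none => exact ⟨rfl, fun u hu => by simp at hu⟩
    | some v => simp at h'
  | some u =>
    cases o' with
    | none => simp at h'
    | some v =>
      simp only [Option.map_some, Option.some.injEq, Prod.mk.injEq] at h'
      obtain ⟨rfl, h2⟩ := h'
      exact ⟨rfl, fun w hw => by
        simp only [Option.some.injEq] at hw
        subst hw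
        exact h2⟩

theorem name_congr {o : Option V} (h : ∀ u, o = some u → a u = b u) :
    G.name a o = G.name b o := by
  cases o with
  | none => rfl
  | some u =>
    show G.nm (some (u, a u)) = G.nm (some (u, b u))
    rw [h u rfl]

theorem name_none : G.name a none = G.name b none := rfl

theorem inp_ch (v : V) :
    G.inp a (G.name a (G.ch v).1, G.name a (G.ch v).2) = G.name a (some v) := by
  have h : ∃ w, G.name a (G.ch w).1 = G.name a (G.ch v).1 ∧
      G.name a (G.ch w).2 = G.name a (G.ch v).2 := ⟨v, rfl, rfl⟩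
  have hw := h.choose_spec
  have : h.choose = v := by
    apply G.inj
    exact Prod.ext (G.name_eq hw.1).1 (G.name_eq hw.2).1
  exact (dif_pos h).trans (by rw [this])

theorem inp_cases (a : V → K) (i j : α) :
    (∃ v, i = G.name a (G.ch v).1 ∧ j = G.name a (G.ch v).2 ∧
      G.inp a (i, j) = G.name a (some v)) ∨
    ((∀ v, ¬ (i = G.name a (G.ch v).1 ∧ j = G.name a (G.ch v).2)) ∧
      G.inp a (i, j) = G.name a none) := by
  by_cases h : ∃ v, i = G.name a (G.ch v).1 ∧ j = G.name a (G.ch v).2
  · obtain ⟨v, rfl, rfl⟩ := h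
    exact .inl ⟨v, rfl, rfl, G.inp_ch v⟩
  · right
    refine ⟨fun v hv => h ⟨v, hv⟩, ?_⟩
    refine dif_neg ?_
    rintro ⟨v, h1, h2⟩
    exact h ⟨v, h1.symm, h2.symm⟩

/-- Every generated element is a name. -/
theorem gen_name {x : α} (h : Gen (G.inp a) (G.nm none) x) : ∃ o, x = G.name a o := by
  cases h with
  | base => exact ⟨none, rfl⟩
  | mul i j _ _ =>
    rcases G.inp_cases a i j with ⟨v, _, _, h⟩ | ⟨_, h⟩
    · exact ⟨some v, h⟩
    · exact ⟨none, h⟩

/-- The exchange lemma. `l₁ ++ m' ++ l₃` is an accepting computation for the labelling `a`, and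
`n₁ ++ m ++ n₃` one for the labelling `b`. If no node where `a` and `b` differ has its entry asked in
`m`, then no child of a node whose entry is asked in `m` is such a node. -/
theorem exchange {P : NBP (α × α) α} (hP : Generative P (G.nm none)) {l₁ m m' l₃ n₁ n₃ : List P.Q}
    {q₁ q₂ q₃ q₄ : P.Q} (ha₁ : P.Comp (G.inp a) P.start l₁ q₁)
    (ha' : P.Comp (G.inp a) q₁ m' q₂) (ha₃ : P.Comp (G.inp a) q₂ l₃ q₃) (hq₃ : q₃ ∈ P.acc)
    (hb₁ : P.Comp (G.inp b) P.start n₁ q₁) (hb : P.Comp (G.inp b) q₁ m q₂)
    (hb₃ : P.Comp (G.inp b) q₂ n₃ q₄) (hq₄ : q₄ ∈ P.acc)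
    (hD : ∀ v, a v ≠ b v → ∀ p ∈ m,
      P.query p ≠ some (G.name b (G.ch v).1, G.name b (G.ch v).2))
    {u y : V} (hu : a u ≠ b u) (huy : G.Child u y) {p : P.Q} (hp : p ∈ m)
    (hpy : P.query p = some (G.name b (G.ch y).1, G.name b (G.ch y).2)) : False := by
  have hA : ∀ r ∈ l₁ ++ m' ++ l₃, ∀ i j, P.query r = some (i, j) →
      (∃ o, i = G.name a o) ∧ ∃ o, j = G.name a o := by
    intro r hr i j hq
    obtain ⟨h1, h2⟩ := hP (G.inp a) _ q₃ hq₃ ((ha₁.append ha').append ha₃) r hr i j hq
    exact ⟨G.gen_name h1, G.gen_name h2⟩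
  have hB : ∀ r ∈ n₁ ++ m ++ n₃, ∀ i j, P.query r = some (i, j) →
      (∃ o, i = G.name b o) ∧ ∃ o, j = G.name b o := by
    intro r hr i j hq
    obtain ⟨h1, h2⟩ := hP (G.inp b) _ q₄ hq₄ ((hb₁.append hb).append hb₃) r hr i j hq
    exact ⟨G.gen_name h1, G.gen_name h2⟩
  -- the mixed input
  let g : α × α → α := fun e => if ∃ r ∈ m, P.query r = some e then G.inp b e else G.inp a e
  have hg : ∀ r ∈ l₁ ++ m' ++ l₃, ∀ e, P.query r = some e → g e = G.inp a e := by
    rintro r hr ⟨i, j⟩ hq
    show (if _ then _ else _) = _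
    split_ifs with h
    · obtain ⟨r', hr', hq'⟩ := h
      obtain ⟨⟨o₁, h1⟩, o₂, h2⟩ := hA r hr i j hq
      obtain ⟨⟨o₁', h1'⟩, o₂', h2'⟩ := hB r' (by simp [hr']) i j hq'
      have e1 := G.name_eq (h1.symm.trans h1')
      have e2 := G.name_eq (h2.symm.trans h2')
      obtain ⟨rfl, e1⟩ := e1
      obtain ⟨rfl, e2⟩ := e2
      rcases G.inp_cases b i j with ⟨v, hi, hj, hv⟩ | ⟨hn, hv⟩
      · have hav : a v = b v := by
          by_contra hne
          exact hD v hne r' hr' (by rw [hq', hi, hj])
        have k1 := (G.name_eq (h1'.symm.trans hi)).1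
        have k2 := (G.name_eq (h2'.symm.trans hj)).1
        rw [hv, h1, h2, k1, k2, G.inp_ch]
        exact (G.name_congr (fun w hw => by
          simp only [Option.some.injEq] at hw
          subst hw
          exact hav)).symm
      · rcases G.inp_cases a i j with ⟨v, hi, hj, hv'⟩ | ⟨_, hv'⟩
        · exfalso
          have k1 := (G.name_eq (h1.symm.trans hi)).1
          have k2 := (G.name_eq (h2.symm.trans hj)).1
          exact hn v ⟨by rw [h1', k1], by rw [h2', k2]⟩
        · rw [hv, hv']
          rfl
    · rfl
  have hg' : ∀ r ∈ m, ∀ e, P.query r = some e → g e = G.inp b e := by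
    intro r hr e hq
    exact if_pos ⟨r, hr, hq⟩
  have hc : P.Comp g P.start (l₁ ++ m ++ l₃) q₃ :=
    ((ha₁.congr fun r hr => hg r (by simp [hr])).append (hb.congr hg')).append
      (ha₃.congr fun r hr => hg r (by simp [hr]))
  obtain ⟨h1, h2⟩ := hP g _ q₃ hq₃ hc p (by simp [hp]) _ _ hpy
  have key : ∀ x, Gen g (G.nm none) x → x ≠ G.name b (some u) := by
    intro x hx hxe
    cases hx with
    | base =>
      have := (G.name_eq (a := b) (b := b) (o := none) (o' := some u) hxe).1
      simp at this
    | mul i j _ _ =>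
      by_cases h : ∃ r ∈ m, P.query r = some (i, j)
      · obtain ⟨r, hr, hq⟩ := h
        rw [hg' r hr (i, j) hq] at hxe
        rcases G.inp_cases b i j with ⟨v, hi, hj, hv⟩ | ⟨_, hv⟩
        · have := (G.name_eq (hv.symm.trans hxe)).1
          simp only [Option.some.injEq] at this
          subst this
          exact hD v hu r hr (by rw [hq, hi, hj])
        · have := (G.name_eq (hv.symm.trans hxe)).1
          simp at this
      · have hgij : g (i, j) = G.inp a (i, j) := if_neg h
        rw [hgij] at hxe
        rcases G.inp_cases a i j with ⟨v, hi, hj, hv⟩ | ⟨_, hv⟩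
        · have := G.name_eq (hv.symm.trans hxe)
          have h3 := this.1
          simp only [Option.some.injEq] at h3
          subst h3
          exact hu (this.2 v rfl)
        · have := (G.name_eq (hv.symm.trans hxe)).1
          simp at this
  rcases huy with hy | hy
  · rw [hy] at h1
    exact key _ h1 rfl
  · rw [hy] at h2
    exact key _ h2 rfl

/-- The covering lemma: in an accepting computation the entry of every node which is necessary for
the root is asked. -/
theorem cover' {P : NBP (α × α) α} {r : V}
    (hS : Sound P (G.nm none) (G.name a (some r)))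
    {l : List P.Q} {q : P.Q} (h : P.Comp (G.inp a) P.start l q) (hq : q ∈ P.acc) (v : V)
    (B : Set V) (hr : r ∈ B) (hB : ∀ x ∈ B, x ≠ v → ∃ u ∈ B, G.Child u x) :
    ∃ p ∈ l, P.query p = some (G.name a (G.ch v).1, G.name a (G.ch v).2) := by
  by_contra hno
  push Not at hno
  let g : α × α → α := fun e =>
    if e.1 = G.name a (G.ch v).1 ∧ e.2 = G.name a (G.ch v).2 then G.nm none else G.inp a e
  have hc : P.Comp g P.start l q := by
    refine h.congr ?_
    rintro p hp ⟨i, j⟩ hq
    refine if_neg ?_
    rintro ⟨h1, h2⟩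
    simp only at h1 h2
    subst h1
    subst h2
    exact hno p hp hq
  have hgen := hS g ⟨l, q, hq, hc⟩
  have key : ∀ x, Gen g (G.nm none) x → ∀ y ∈ B, x ≠ G.name a (some y) := by
    intro x hx
    induction hx with
    | base =>
      intro y _ he
      have := (G.name_eq (a := a) (b := a) (o := none) (o' := some y) he).1
      simp at this
    | mul i j _ _ ih1 ih2 =>
      intro y hy he
      by_cases hij : i = G.name a (G.ch v).1 ∧ j = G.name a (G.ch v).2
      · have hgij : g (i, j) = G.nm none := if_pos hij
        rw [hgij] at he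
        have := (G.name_eq (a := a) (b := a) (o := none) (o' := some y) he).1
        simp at this
      · have hgij : g (i, j) = G.inp a (i, j) := if_neg hij
        rw [hgij] at he
        rcases G.inp_cases a i j with ⟨w, hi, hj, hw⟩ | ⟨_, hw⟩
        · have := (G.name_eq (hw.symm.trans he)).1
          simp only [Option.some.injEq] at this
          subst this
          have hwv : w ≠ v := by
            rintro rfl
            exact hij ⟨hi, hj⟩
          obtain ⟨u, hu, hc⟩ := hB w hy hwv
          rcases hc with hc | hc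
          · exact ih1 u hu (by rw [hi, hc])
          · exact ih2 u hu (by rw [hj, hc])
        · have := (G.name_eq (hw.symm.trans he)).1
          simp at this
  exact key _ hgen r hr rfl

theorem cover {P : NBP (α × α) α} {r : V}
    (hS : SolvesGen P (G.nm none) (G.name a (some r)))
    {l : List P.Q} {q : P.Q} (h : P.Comp (G.inp a) P.start l q) (hq : q ∈ P.acc) (v : V)
    (B : Set V) (hr : r ∈ B) (hB : ∀ x ∈ B, x ≠ v → ∃ u ∈ B, G.Child u x) :
    ∃ p ∈ l, P.query p = some (G.name a (G.ch v).1, G.name a (G.ch v).2) :=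
  G.cover' (fun g h => (hS g).1 h) h hq v B hr hB

end Dag

end Pool.Agent.Lib.BP
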